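import Pool.Agent.Helper93K9.DC.Bid
import Pool.Agent.R867.H.Irr

/-! Double covers: the main statements. -/

set_option autoImplicit false

namespace Pool.Agent.Helper93K9.DC

open MvPolynomial Pool.Agent.R867.Mov Pool.Agent.R867.J Pool.Agent.R867.H Pool.Agent.R867.D

universe u v w

section Rels

variable {k K : Type u} [Field k] [Field K] [Algebra k K] {N : ℕ} {ξ : Fin (N + 1) → K}
  {f : MvPolynomial (Fin N) k} {i j : Fin N}

theorem rel_q2 [CharZero k] (hξ : GP (cover f) ξ) (hf : Irreducible f) (hij : i ≠ j)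
    (hd : ∀ m ∈ f.support, m i + m j ≤ 4) (h4 : ∀ l, degreeOf l f ≤ 4)
    (hq : ¬ f ∣ q2 i j f) : Rel k ξ Set.univ := by
  obtain ⟨K', _, _, η, hη⟩ := exists_gp hf
  have hq' : aeval η (q2 i j f) ≠ 0 := fun h0 => hq ((hη.zero_iff _).mp h0)
  obtain ⟨-, hdj⟩ := deg_ne_of_q2 hq'
  rcases simple_or_conic hη hf.ne_zero hij hd hq' with ⟨v, hv⟩ | h2
  · exact rel_cover hξ hf hij hd h4 (nd_of_tang hf hij hv)
  · exact rel_conic' hξ hf (Nat.one_le_iff_ne_zero.mpr hdj) h2 h4

end Rels

section Norm

variable {k : Type u} [Field k] {N : ℕ} {f : MvPolynomial (Fin N) k}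

theorem aeval_fse {E : Type v} [Field E] [Algebra k E] (c : Fin N → E) (w : E)
    (g : MvPolynomial (Fin (N + 1)) k) :
    aeval (Fin.cons w c : Fin (N + 1) → E) g = ev2 c w (finSuccEquiv k N g) := by
  have h : (aeval (Fin.cons w c : Fin (N + 1) → E) : MvPolynomial (Fin (N + 1)) k →ₐ[k] E) =
      (ev2 c w).comp (finSuccEquiv k N).toAlgHom := by
    apply MvPolynomial.algHom_ext
    intro l
    refine Fin.cases ?_ (fun l => ?_) l
    · rw [aeval_X, Fin.cons_zero]
      change w = ev2 c w (finSuccEquiv k N (X 0))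
      rw [finSuccEquiv_X_zero, ev2_X]
    · rw [aeval_X, Fin.cons_succ]
      change c l = ev2 c w (finSuccEquiv k N (X l.succ))
      rw [finSuccEquiv_X_succ, ev2_C, aeval_X]
  rw [h]
  rfl

theorem aeval_alg {E : Type v} [Field E] [Algebra k E] (c : Fin N → k)
    (G : MvPolynomial (Fin N) k) :
    aeval (fun l => algebraMap k E (c l)) G = algebraMap k E (eval c G) :=
  MvPolynomial.aeval_algebraMap_apply E c G

/-- the norm of a function which does not vanish on the double cover -/
theorem exists_norm (hf : Irreducible f) {g : MvPolynomial (Fin (N + 1)) k}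
    (hg : ¬ cover f ∣ g) : ∃ h : MvPolynomial (Fin N) k, h ≠ 0 ∧
      ∀ {E : Type v} [Field E] [Algebra k E] (c : Fin N → E) (w : E), w ^ 2 = aeval c f →
        aeval c h ≠ 0 → aeval (Fin.cons w c : Fin (N + 1) → E) g ≠ 0 := by
  obtain ⟨P, hP⟩ : ∃ P, P = finSuccEquiv k N g := ⟨_, rfl⟩
  obtain ⟨M, hM⟩ : ∃ M : Polynomial (MvPolynomial (Fin N) k),
    M = Polynomial.X ^ 2 - Polynomial.C f := ⟨_, rfl⟩
  have hmon : M.Monic := by
    rw [hM]
    exact Polynomial.monic_X_pow_sub_C f (by norm_num)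
  have hMd : M.natDegree = 2 := by
    rw [hM]
    exact Polynomial.natDegree_X_pow_sub_C
  have hirr : Irreducible M := by
    rw [hM]
    exact irr_cyc hf (by norm_num)
  obtain ⟨r, hr⟩ : ∃ r, r = P %ₘ M := ⟨_, rfl⟩
  have hrd : r.natDegree ≤ 1 := by
    have h1 := Polynomial.natDegree_modByMonic_lt P hmon (by
      intro h0
      rw [h0, Polynomial.natDegree_one] at hMd
      omega)
    rw [← hr] at h1
    omega
  have hr0 : r ≠ 0 := by
    intro h0
    apply hg
    rw [hr, Polynomial.modByMonic_eq_zero_iff_dvd hmon] at h0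
    obtain ⟨Q, hQ⟩ := h0
    refine ⟨(finSuccEquiv k N).symm Q, ?_⟩
    apply (finSuccEquiv k N).injective
    rw [map_mul, fse_cover, AlgEquiv.apply_symm_apply, ← hP, hQ, hM]
  obtain ⟨a, ha⟩ : ∃ a, a = r.coeff 0 := ⟨_, rfl⟩
  obtain ⟨b, hb⟩ : ∃ b, b = r.coeff 1 := ⟨_, rfl⟩
  have hrab : r = Polynomial.C b * Polynomial.X + Polynomial.C a := by
    rw [ha, hb]
    exact Polynomial.eq_X_add_C_of_natDegree_le_one hrd
  have hdegree : ∀ t : MvPolynomial (Fin N) k,
      (Polynomial.C t * Polynomial.X + Polynomial.C a).degree < M.degree := by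
    intro t
    rw [Polynomial.degree_eq_natDegree hmon.ne_zero, hMd]
    refine lt_of_le_of_lt Polynomial.degree_linear_le ?_
    norm_num
  refine ⟨a ^ 2 - b ^ 2 * f, ?_, ?_⟩
  · intro h0
    have h1 : M ∣ (Polynomial.C b * Polynomial.X + Polynomial.C a) *
        (Polynomial.C (-b) * Polynomial.X + Polynomial.C a) := by
      refine ⟨- Polynomial.C b ^ 2, ?_⟩
      have h2 : Polynomial.C a ^ 2 = Polynomial.C b ^ 2 * Polynomial.C f := by
        rw [← Polynomial.C_pow, ← Polynomial.C_pow, ← Polynomial.C_mul]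
        congr 1
        exact sub_eq_zero.mp h0
      rw [hM, Polynomial.C_neg]
      linear_combination h2
    rcases hirr.prime.dvd_or_dvd h1 with h2 | h2
    · exact hmon.not_dvd_of_degree_lt (by rw [← hrab]; exact hr0) (hdegree b) h2
    · refine hmon.not_dvd_of_degree_lt ?_ (hdegree (-b)) h2
      intro h3
      apply hr0
      have h4 := congrArg (fun z => Polynomial.coeff z 0) h3
      have h5 := congrArg (fun z => Polynomial.coeff z 1) h3
      simp only [Polynomial.coeff_add, Polynomial.coeff_C_mul, Polynomial.coeff_X_zero,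
        Polynomial.coeff_C_zero, Polynomial.coeff_zero, mul_zero, zero_add,
        Polynomial.coeff_X_one, mul_one, Polynomial.coeff_C_succ, add_zero] at h4 h5
      rw [hrab, h4, neg_eq_zero.mp h5]
      simp
  · intro E _ _ c w hw hne h0
    apply hne
    rw [aeval_fse, ← hP] at h0
    have h1 : P = r + M * (P /ₘ M) := by
      rw [hr]
      exact (Polynomial.modByMonic_add_div P M).symm
    have h2 : ev2 c w M = 0 := by
      rw [hM, map_sub, map_pow, ev2_X, ev2_C, hw, sub_self]
    rw [h1, map_add, map_mul, h2, zero_mul, add_zero, hrab, map_add, map_mul, ev2_C, ev2_C,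
      ev2_X] at h0
    rw [map_sub, map_mul, map_pow, map_pow, ← hw]
    linear_combination (aeval c a - aeval c b * w) * h0

/-- the main statement, in terms of the coordinates of the base -/
theorem main_cover [CharZero k]
    (hirr : Irreducible (MvPolynomial.map (algebraMap k (AlgebraicClosure k)) f))
    (hrel : ∀ {K : Type u} [Field K] [Algebra k K] (ξ : Fin (N + 1) → K), GP (cover f) ξ →
      Rel k ξ Set.univ) :
    (∃ h : MvPolynomial (Fin N) k, h ≠ 0 ∧
      ∀ (E : Type u) [Field E] [Algebra k E] (c : Fin N → E) (w : E), w ^ 2 = aeval c f →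
        aeval c h ≠ 0 →
        (∃ (n : ℕ) (P : Fin (N + 1) → FractionRing (MvPolynomial (Fin n) E)),
          ∀ G : MvPolynomial (Fin (N + 1)) E, aeval P G = 0 ↔
            MvPolynomial.map (algebraMap k E) (cover f) ∣ G) ∧
        ∀ G : MvPolynomial (Fin (N + 1)) E, ¬ MvPolynomial.map (algebraMap k E) (cover f) ∣ G →
          ∃ e : Fin (N + 1) → E, aeval e (cover f) = 0 ∧ aeval e G ≠ 0) ∧
    ∃ E : IntermediateField k (AlgebraicClosure k), FiniteDimensional k E ∧
      Module.finrank k E ≤ 2 ∧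
        (∃ (n : ℕ) (P : Fin (N + 1) → FractionRing (MvPolynomial (Fin n) E)),
          ∀ G : MvPolynomial (Fin (N + 1)) E, aeval P G = 0 ↔
            MvPolynomial.map (algebraMap k E) (cover f) ∣ G) ∧
        ∀ G : MvPolynomial (Fin (N + 1)) E, ¬ MvPolynomial.map (algebraMap k E) (cover f) ∣ G →
          ∃ e : Fin (N + 1) → E, aeval e (cover f) = 0 ∧ aeval e G ≠ 0 := by
  have hf : Irreducible f := irr_of_map hirr
  obtain ⟨K, _, _, ξ, hξ⟩ := exists_gp (irr_cover hf)
  obtain ⟨g, hg, hmain⟩ := main_dens hξ (by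
    rw [map_cover]
    exact irr_cover hirr) (hrel ξ hξ)
  obtain ⟨h, hh, hnorm⟩ := exists_norm.{u, u} hf hg
  have key : ∀ (E : Type u) [Field E] [Algebra k E] (c : Fin N → E) (w : E), w ^ 2 = aeval c f →
      aeval c h ≠ 0 →
        (∃ (n : ℕ) (P : Fin (N + 1) → FractionRing (MvPolynomial (Fin n) E)),
          ∀ G : MvPolynomial (Fin (N + 1)) E, aeval P G = 0 ↔
            MvPolynomial.map (algebraMap k E) (cover f) ∣ G) ∧
        ∀ G : MvPolynomial (Fin (N + 1)) E, ¬ MvPolynomial.map (algebraMap k E) (cover f) ∣ G →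
          ∃ e : Fin (N + 1) → E, aeval e (cover f) = 0 ∧ aeval e G ≠ 0 := by
    intro E _ _ c w hw hc
    refine hmain E (Fin.cons w c : Fin (N + 1) → E) ?_ (hnorm c w hw hc)
    rw [aeval_cover, Fin.cons_zero]
    have h1 : (fun l : Fin N => (Fin.cons w c : Fin (N + 1) → E) l.succ) = c := by
      funext l
      rw [Fin.cons_succ]
    rw [h1, hw, sub_self]
  refine ⟨⟨h, hh, key⟩, ?_⟩
  -- a quadratic extension
  obtain ⟨c, hc⟩ : ∃ c : Fin N → k, eval c h ≠ 0 := by
    by_contra hcon
    push Not at hcon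
    apply hh
    apply MvPolynomial.funext
    intro c
    rw [hcon c, map_zero]
  obtain ⟨w, hw⟩ : ∃ w : AlgebraicClosure k, w ^ 2 = algebraMap k (AlgebraicClosure k) (eval c f) :=
    IsAlgClosed.exists_pow_nat_eq _ (by norm_num)
  have hwint : IsIntegral k w := Algebra.IsIntegral.isIntegral w
  refine ⟨IntermediateField.adjoin k {w}, IntermediateField.adjoin.finiteDimensional hwint, ?_,
    key _ (fun l => algebraMap k _ (c l)) ⟨w, IntermediateField.mem_adjoin_simple_self k w⟩ ?_ ?_⟩
  · rw [IntermediateField.adjoin.finrank hwint]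
    have h1 : minpoly k w ∣ Polynomial.X ^ 2 - Polynomial.C (eval c f) := by
      apply minpoly.dvd
      rw [map_sub, map_pow, Polynomial.aeval_X, Polynomial.aeval_C, hw, sub_self]
    have h2 := Polynomial.natDegree_le_of_dvd h1 (Polynomial.X_pow_sub_C_ne_zero (by norm_num) _)
    rwa [Polynomial.natDegree_X_pow_sub_C] at h2
  · apply Subtype.ext
    rw [aeval_alg]
    exact hw
  · rw [aeval_alg]
    exact (map_ne_zero _).mpr hc

end Norm

end Pool.Agent.Helper93K9.DC
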