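import Pool.Agent.Helper93K9.DC.Nd
import Pool.Agent.R867.H.DensH
import Pool.Agent.R867.H.Rel

/-! The immovable functions of a double cover. -/

set_option autoImplicit false

namespace Pool.Agent.Helper93K9.DC

open MvPolynomial Pool.Agent.R867.Mov Pool.Agent.R867.J Pool.Agent.R867.H Pool.Agent.R867.D

universe u v w

section Cover

variable {k : Type u} [CommRing k] {N : ℕ}

theorem fse_cover (f : MvPolynomial (Fin N) k) :
    finSuccEquiv k N (cover f) = Polynomial.X ^ 2 - Polynomial.C f := by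
  unfold cover
  rw [map_sub, map_pow, finSuccEquiv_X_zero]
  congr 1
  rw [finSuccEquiv_apply, eval₂Hom_rename]
  have h : (eval₂Hom (Polynomial.C.comp C)
      ((fun i : Fin (N + 1) => Fin.cases Polynomial.X (fun k => Polynomial.C (X k)) i) ∘
        Fin.succ) : MvPolynomial (Fin N) k →+* Polynomial (MvPolynomial (Fin N) k)) =
      Polynomial.C := by
    apply MvPolynomial.ringHom_ext
    · intro c
      rw [eval₂Hom_C]
      rfl
    · intro l
      rw [eval₂Hom_X']
      rfl
  exact congrArg (fun φ => φ f) h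

theorem map_cover {R : Type v} [CommRing R] (φ : k →+* R) (f : MvPolynomial (Fin N) k) :
    map φ (cover f) = cover (map φ f) := by
  unfold cover
  rw [map_sub, map_pow, map_X, map_rename]

end Cover

section Fld

variable {k : Type u} [Field k] {N : ℕ} {f : MvPolynomial (Fin N) k}

theorem irr_cover (hf : Irreducible f) : Irreducible (cover f) := by
  rw [← MulEquiv.irreducible_iff (finSuccEquiv k N).toMulEquiv]
  change Irreducible (finSuccEquiv k N (cover f))
  rw [fse_cover]
  exact irr_cyc hf (by norm_num)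

theorem degreeOf_cover (f : MvPolynomial (Fin N) k) : degreeOf 0 (cover f) ≠ 0 := by
  rw [← natDegree_finSuccEquiv, fse_cover, Polynomial.natDegree_X_pow_sub_C]
  norm_num

/-- if the polynomial does not involve the two variables, then the condition fails -/
theorem deg_of_nd {i j : Fin N} (h : nd (R := MvPolynomial (Fin N) k) X i j f ≠ 0) :
    degreeOf i f ≠ 0 ∨ degreeOf j f ≠ 0 := by
  by_contra hcon
  push Not at hcon
  obtain ⟨h1, h2⟩ := hcon
  have hno : ∀ l ∈ f.vars, l ≠ i ∧ l ≠ j := by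
    intro l hl
    obtain ⟨e, he, hle⟩ := (mem_vars_iff_mem_support l).mp hl
    have h4 := monomial_le_degreeOf l he
    have h5 := Finsupp.mem_support_iff.mp hle
    constructor
    · rintro rfl
      omega
    · rintro rfl
      omega
  have h3 : two (R := MvPolynomial (Fin N) k) X i j f = Polynomial.C (Polynomial.C f) := by
    have h4 : (Polynomial.C.comp Polynomial.C : MvPolynomial (Fin N) k →+* _) f =
        Polynomial.C (Polynomial.C f) := rfl
    rw [← h4]
    unfold two
    have h5 : ((Polynomial.C.comp Polynomial.C : MvPolynomial (Fin N) k →+* _)) f =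
        eval₂Hom (algebraMap k (Polynomial (Polynomial (MvPolynomial (Fin N) k))))
          (fun l => Polynomial.C (Polynomial.C (X l))) f := by
      congr 1
      apply MvPolynomial.ringHom_ext
      · intro c
        rw [eval₂Hom_C]
        rfl
      · intro l
        rw [eval₂Hom_X']
        rfl
    rw [h5]
    change eval₂Hom _ _ f = _
    refine eval₂Hom_congr' rfl (fun l hl _ => ?_) rfl
    obtain ⟨e1, e2⟩ := hno l hl
    unfold dir
    rw [if_neg e1, if_neg e2]
    simp
  apply h
  have hc : ∀ m, m ≠ 0 → (two (R := MvPolynomial (Fin N) k) X i j f).coeff m = 0 := by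
    intro m hm
    rw [h3, Polynomial.coeff_C_of_ne_zero hm]
  unfold nd
  have h6 : cub (R := MvPolynomial (Fin N) k) X i j f = 0 := by
    unfold cub
    rw [hc 1 (by norm_num), hc 2 (by norm_num), hc 3 (by norm_num)]
    ring
  rw [h6, Polynomial.coeff_zero, zero_mul, zero_mul]

end Fld

section Main

variable {k K : Type u} [Field k] [Field K] [Algebra k K] {N : ℕ} {ξ : Fin (N + 1) → K}
  {f : MvPolynomial (Fin N) k} {i j : Fin N}

theorem ind_cover (hξ : GP (cover f) ξ) (hf : Irreducible f) :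
    AlgebraicIndependent k (fun l : Fin N => ξ l.succ) := by
  have h := indep_of (irr_cover hf).ne_zero (degreeOf_cover f) (fun P => (hξ.zero_iff P).mp)
  have h2 := h.comp (fun l : Fin N => (⟨l.succ, Fin.succ_ne_zero l⟩ : {i : Fin (N + 1) // i ≠ 0}))
    (fun a b hab => Fin.succ_injective _ (congrArg Subtype.val hab))
  exact h2

theorem sq_cover (hξ : GP (cover f) ξ) : ξ 0 ^ 2 = aeval (fun l : Fin N => ξ l.succ) f := by
  have h1 := (hξ.zero_iff (cover f)).mpr dvd_rfl
  rw [aeval_cover] at h1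
  exact sub_eq_zero.mp h1

theorem top_cover (hξ : GP (cover f) ξ) :
    IntermediateField.adjoin k (insert (ξ 0) (Set.range fun l : Fin N => ξ l.succ)) = ⊤ := by
  rw [← hξ.gen]
  congr 1
  ext z
  constructor
  · rintro (rfl | ⟨l, rfl⟩)
    · exact ⟨0, rfl⟩
    · exact ⟨l.succ, rfl⟩
  · rintro ⟨m, rfl⟩
    refine Fin.cases ?_ (fun l => ?_) m
    · exact Set.mem_insert _ _
    · exact Set.mem_insert_of_mem _ ⟨l, rfl⟩

/-- the base step for two variables of total degree at most four -/
theorem base_two [CharZero k] (hξ : GP (cover f) ξ) (hf : Irreducible f) (hij : i ≠ j)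
    (hd : ∀ m ∈ f.support, m i + m j ≤ 4) (hnd : nd (fun l : Fin N => ξ l.succ) i j f ≠ 0)
    {a : K} (ha : Imm k a) : a ∈ cl k ((fun l : Fin N => ξ l.succ) '' ({i, j} : Set (Fin N))ᶜ) := by
  have hcK : CharZero K := charZero_of_injective_algebraMap (algebraMap k K).injective
  obtain ⟨x, hx⟩ : ∃ x : Fin N → K, x = fun l => ξ l.succ := ⟨_, rfl⟩
  have hind := ind_cover hξ hf
  have hw := sq_cover hξ
  have htop := top_cover hξ
  rw [← hx] at hind hw htop
  obtain ⟨D1, hD1⟩ := Pool.Agent.H135R2.VS.exists_der hind (fun l => if l = i then 1 else 0)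
  obtain ⟨D2, hD2⟩ := Pool.Agent.H135R2.VS.exists_der hind (fun l => if l = j then 1 else 0)
  obtain ⟨s₁, s₂, hne, hs⟩ := exists_slopes hnd
  have k1 : ∀ s, s = s₁ ∨ s = s₂ → algebraMap K (AlgebraicClosure K) (D1 a) +
      s * algebraMap K (AlgebraicClosure K) (D2 a) = 0 := by
    intro s h
    obtain ⟨h1, h2, h3⟩ := hs s h
    refine kill_cover hξ hij hd (D1 := D1) (D2 := D2) ?_ ?_ (algebraMap K (AlgebraicClosure K))
      h1 h2 h3 ha
    · intro l
      have := hD1 l
      rw [hx] at this
      exact this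
    · intro l
      have := hD2 l
      rw [hx] at this
      exact this
  have e1 := k1 s₁ (Or.inl rfl)
  have e2 := k1 s₂ (Or.inr rfl)
  have h2 : D2 a = 0 := by
    have h4 : (s₁ - s₂) * algebraMap K (AlgebraicClosure K) (D2 a) = 0 := by
      linear_combination e1 - e2
    exact (map_eq_zero _).mp ((mul_eq_zero.mp h4).resolve_left (sub_ne_zero.mpr hne))
  have h1 : D1 a = 0 := by
    rw [h2, map_zero, mul_zero, add_zero] at e1
    exact (map_eq_zero _).mp e1
  rw [← hx]
  by_contra hcon
  have h4 := mem_cl_all (by norm_num) hw htop a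
  have hset : Set.range x ⊆ insert (x i) (insert (x j) (x '' ({i, j} : Set (Fin N))ᶜ)) := by
    rintro _ ⟨m, rfl⟩
    by_cases e1 : m = i
    · rw [e1]; exact Set.mem_insert _ _
    · by_cases e2 : m = j
      · rw [e2]; exact Set.mem_insert_of_mem _ (Set.mem_insert _ _)
      · refine Set.mem_insert_of_mem _ (Set.mem_insert_of_mem _ ⟨m, ?_, rfl⟩)
        rintro (h | h)
        · exact e1 h
        · exact e2 h
  have h5 := cl_mono hset h4
  have hne' : ∀ m, m ∈ ({i, j} : Set (Fin N))ᶜ → m ≠ i ∧ m ≠ j := by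
    intro m hm
    constructor
    · rintro rfl
      exact hm (Or.inl rfl)
    · rintro rfl
      exact hm (Or.inr rfl)
  have h6 : a ∈ cl k (insert (x j) (x '' ({i, j} : Set (Fin N))ᶜ)) := by
    by_contra h6
    have h7 := der_cl D1 (S := insert a (insert (x j) (x '' ({i, j} : Set (Fin N))ᶜ))) (by
      rintro y (rfl | rfl | ⟨m, hm, rfl⟩)
      · exact h1
      · rw [hD1, if_neg (Ne.symm hij)]
      · rw [hD1, if_neg (hne' m hm).1]) (cl_exch h5 h6)
    rw [hD1, if_pos rfl] at h7
    exact one_ne_zero h7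
  have h7 := der_cl D2 (S := insert a (x '' ({i, j} : Set (Fin N))ᶜ)) (by
    rintro y (rfl | ⟨m, hm, rfl⟩)
    · exact h2
    · rw [hD2, if_neg (hne' m hm).2]) (cl_exch h6 hcon)
  rw [hD2, if_pos rfl] at h7
  exact one_ne_zero h7

/-- the immovable functions are algebraic over `k` -/
theorem rel_cover [CharZero k] (hξ : GP (cover f) ξ) (hf : Irreducible f) (hij : i ≠ j)
    (hd : ∀ m ∈ f.support, m i + m j ≤ 4) (h4 : ∀ l, degreeOf l f ≤ 4)
    (hnd : nd (R := MvPolynomial (Fin N) k) X i j f ≠ 0) : Rel k ξ Set.univ := by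
  have hind := ind_cover hξ hf
  have hw := sq_cover hξ
  have htop := top_cover hξ
  have hdeg := deg_of_nd hnd
  have hnd' : nd (fun l : Fin N => ξ l.succ) i j f ≠ 0 := by
    have h1 := nd_map (aeval (fun l : Fin N => ξ l.succ) : MvPolynomial (Fin N) k →ₐ[k] K)
      (X : Fin N → MvPolynomial (Fin N) k) i j f
    simp only [aeval_X] at h1
    rw [← h1]
    intro h0
    exact hnd (hind (h0.trans (map_zero _).symm))
  obtain ⟨i₀, hi₀, hdi₀⟩ : ∃ i₀, i₀ ∈ ({i, j} : Set (Fin N)) ∧ 1 ≤ degreeOf i₀ f := by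
    rcases hdeg with h | h
    · exact ⟨i, Or.inl rfl, Nat.one_le_iff_ne_zero.mpr h⟩
    · exact ⟨j, Or.inr rfl, Nat.one_le_iff_ne_zero.mpr h⟩
  intro a ha
  rw [Set.compl_univ, Set.image_empty]
  refine all_out hind hf (r := 2) (by norm_num) hw htop (I₀ := {i, j})
    (fun a ha => base_two hξ hf hij hd hnd' ha) ?_ a ha
  intro l hl hpos
  obtain ⟨T, hT1, hT2⟩ := self2 hind hf hw htop hpos (h4 l)
  refine ⟨T, hT1, ?_⟩
  rw [hT2]
  exact notMem_cl_A hind hf (i₀ := i₀) (S := ({i, j} : Set (Fin N))ᶜ) hl (fun h => h hi₀) hdi₀ (C2_dvd l f) (D2_dvd l f)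
    (by norm_num) (not_dvd_pderiv hpos)

/-- the immovable functions, for one variable of degree at most two -/
theorem rel_conic' [CharZero k] (hξ : GP (cover f) ξ) (hf : Irreducible f) {i₀ : Fin N}
    (h1 : 1 ≤ degreeOf i₀ f) (h2 : degreeOf i₀ f ≤ 2) (h4 : ∀ l, degreeOf l f ≤ 4) :
    Rel k ξ Set.univ := by
  have hind := ind_cover hξ hf
  have hw := sq_cover hξ
  have htop := top_cover hξ
  obtain ⟨σ, hσ1, hσ2⟩ := conic_move hind hf hw htop h2
  intro a ha
  rw [Set.compl_univ, Set.image_empty]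
  refine all_out hind hf (r := 2) (by norm_num) hw htop (I₀ := {i₀}) ?_ ?_ a ha
  · exact base_out (r := 2) (by norm_num) hw htop σ hσ1 hσ2
  · intro j hj hpos
    obtain ⟨T, hT1, hT2⟩ := self2 hind hf hw htop hpos (h4 j)
    refine ⟨T, hT1, ?_⟩
    rw [hT2]
    exact notMem_cl_A hind hf (i₀ := i₀) hj (by simp) h1 (C2_dvd j f) (D2_dvd j f) (by norm_num)
      (not_dvd_pderiv hpos)

end Main

end Pool.Agent.Helper93K9.DC
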