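import Pool.Agent.Helper93K9.DC.Out

/-! The nondegeneracy condition near a simple tangent line: the algebra. -/

set_option autoImplicit false

namespace Pool.Agent.Helper93K9.DC

open Polynomial

universe u v w

/-- coprimality can be checked after a reduction -/
theorem coprime_of_red {R : Type v} [CommRing R] {L : Type w} [Field L] {M : Type u} [Field M]
    (π : R →+* L) (ι : R →+* M) (hι : Function.Injective ι) {p e : R[X]} {m : ℕ}
    (hp : p.natDegree ≤ m) (hc : π (p.coeff m) ≠ 0) (h : IsCoprime (p.map π) (e.map π)) :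
    IsCoprime (p.map ι) (e.map ι) := by
  have h1 : resultant (p.map π) (e.map π) m e.natDegree ≠ 0 := by
    rw [res_iff (natDegree_map_le.trans hp) (by rwa [coeff_map]) natDegree_map_le]
    exact h
  rw [resultant_map_map] at h1
  have h2 : resultant p e m e.natDegree ≠ 0 := by
    intro h0
    exact h1 (by rw [h0, map_zero])
  have h3 : p.coeff m ≠ 0 := by
    intro h0
    exact hc (by rw [h0, map_zero])
  rw [← res_iff (m := m) (n := e.natDegree) (natDegree_map_le.trans hp) (by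
    rw [coeff_map]
    exact fun h0 => h3 (hι (h0.trans (map_zero ι).symm))) natDegree_map_le, resultant_map_map]
  exact fun h0 => h2 (hι (h0.trans (map_zero ι).symm))

/-- coprimality is invariant under linear substitutions -/
theorem coprime_comp {M : Type u} [Field M] {s e : M} (he : e ≠ 0) {p q : M[X]}
    (h : IsCoprime (p.comp (C s + C e * X)) (q.comp (C s + C e * X))) : IsCoprime p q := by
  obtain ⟨a, b, hab⟩ := h
  obtain ⟨m, hm⟩ : ∃ m : M[X], m = C e⁻¹ * (X - C s) := ⟨_, rfl⟩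
  have hinv : (C s + C e * X : M[X]).comp m = X := by
    rw [add_comp, mul_comp, C_comp, C_comp, X_comp, hm, ← mul_assoc, ← C_mul, mul_inv_cancel₀ he,
      C_1, one_mul]
    ring
  refine ⟨a.comp m, b.comp m, ?_⟩
  have h1 := congrArg (fun z : M[X] => z.comp m) hab
  simp only [add_comp, mul_comp, comp_assoc, one_comp] at h1
  have h2 : (C s + C e * m.comp X).comp X = X := by
    rw [comp_X, comp_X, ← hinv, add_comp, mul_comp, C_comp, C_comp, X_comp]
  have h3 : (C s + C e * m : M[X]) = X := by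
    rw [← hinv, add_comp, mul_comp, C_comp, C_comp, X_comp]
  simp only [C_comp, X_comp, h3, comp_X] at h1
  exact h1

section Model

variable {L : Type w} [Field L] {α β q c a l : L}

theorem model_y (hα : α ≠ 0) (hd : c ^ 2 - 4 * q * a ≠ 0) :
    IsCoprime (C (4 * α * q) - (C β * X) ^ 2 : L[X])
      (C l * (C (4 * α * q) - (C β * X) ^ 2) ^ 2 + (C (α * c ^ 2) - (C β * X) ^ 2 * C a)) := by
  have h2 : α * (c ^ 2 - 4 * q * a) ≠ 0 := mul_ne_zero hα hd
  obtain ⟨y, hy⟩ : ∃ y : L[X], y = C (4 * α * q) - (C β * X) ^ 2 := ⟨_, rfl⟩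
  have h3 : (C β * X) ^ 2 = C (4 * α * q) - y := by rw [hy]; ring
  rw [← hy, h3]
  refine ⟨- C (α * (c ^ 2 - 4 * q * a))⁻¹ * (C l * y + C a), C (α * (c ^ 2 - 4 * q * a))⁻¹, ?_⟩
  have h4 : C (α * (c ^ 2 - 4 * q * a))⁻¹ * C (α * (c ^ 2 - 4 * q * a)) = (1 : L[X]) := by
    rw [← C_mul, inv_mul_cancel₀ h2, C_1]
  have h5 : C (α * (c ^ 2 - 4 * q * a)) = C (α * c ^ 2) - C (4 * α * q) * C a := by
    rw [← C_mul, ← C_sub]
    congr 1
    ring
  rw [h5] at h4
  linear_combination h4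

theorem model_x (h2 : l * (4 * α * q) ^ 2 + α * c ^ 2 ≠ 0) :
    IsCoprime (C β * X : L[X])
      (C l * (C (4 * α * q) - (C β * X) ^ 2) ^ 2 + (C (α * c ^ 2) - (C β * X) ^ 2 * C a)) := by
  obtain ⟨P, hP⟩ : ∃ P : L[X], P = C β * X := ⟨_, rfl⟩
  rw [← hP]
  refine ⟨- C (l * (4 * α * q) ^ 2 + α * c ^ 2)⁻¹ * (- C l * P * (C (4 * α * q) - P ^ 2 +
    C (4 * α * q)) - P * C a), C (l * (4 * α * q) ^ 2 + α * c ^ 2)⁻¹, ?_⟩
  have h4 : C (l * (4 * α * q) ^ 2 + α * c ^ 2)⁻¹ * C (l * (4 * α * q) ^ 2 + α * c ^ 2) =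
      (1 : L[X]) := by
    rw [← C_mul, inv_mul_cancel₀ h2, C_1]
  have h5 : C (l * (4 * α * q) ^ 2 + α * c ^ 2) = C l * C (4 * α * q) ^ 2 + C (α * c ^ 2) := by
    rw [← C_pow, ← C_mul, ← C_add]
  rw [h5] at h4
  linear_combination h4

theorem model_e (hα : α ≠ 0) (hd : c ^ 2 - 4 * q * a ≠ 0)
    (h2 : l * (4 * α * q) ^ 2 + α * c ^ 2 ≠ 0) :
    IsCoprime ((C β * X) ^ 3 - C (4 * α * q) * (C β * X) : L[X])
      (C l * (C (4 * α * q) - (C β * X) ^ 2) ^ 2 + (C (α * c ^ 2) - (C β * X) ^ 2 * C a)) := by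
  have h3 : ((C β * X) ^ 3 - C (4 * α * q) * (C β * X) : L[X]) =
      -((C β * X) * (C (4 * α * q) - (C β * X) ^ 2)) := by ring
  rw [h3]
  exact ((model_x h2).mul_left (model_y hα hd)).neg_left

theorem model_d [CharZero L] (hα : α ≠ 0) (hβ : β ≠ 0) (hq : q ≠ 0) :
    IsCoprime ((C β * X) ^ 3 - C (4 * α * q) * (C β * X) : L[X])
      (derivative ((C β * X) ^ 3 - C (4 * α * q) * (C β * X) : L[X])) := by
  have h3 : ((C β * X) ^ 3 - C (4 * α * q) * (C β * X) : L[X]) =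
      -((C β * X) * (C (4 * α * q) - (C β * X) ^ 2)) := by ring
  have h4 : derivative ((C β * X) ^ 3 - C (4 * α * q) * (C β * X) : L[X]) =
      C β * (3 * (C β * X) ^ 2 - C (4 * α * q)) := by
    have h5 : derivative (C β * X : L[X]) = C β := by
      rw [derivative_C_mul, derivative_X, mul_one]
    rw [derivative_sub, derivative_pow, h5, derivative_C_mul, h5]
    have h6 : (C ((3 : ℕ) : L)) = (3 : L[X]) := map_ofNat C 3
    rw [h6]
    ring
  rw [h4, h3]
  obtain ⟨P, hP⟩ : ∃ P : L[X], P = C β * X := ⟨_, rfl⟩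
  rw [← hP]
  have hn : (4 * α * q) ≠ 0 := mul_ne_zero (mul_ne_zero (by norm_num) hα) hq
  have hn' : β * (4 * α * q) ≠ 0 := mul_ne_zero hβ hn
  have e1 : C (β * (4 * α * q))⁻¹ * (C β * C (4 * α * q)) = (1 : L[X]) := by
    rw [← C_mul, ← C_mul, inv_mul_cancel₀ hn', C_1]
  have e2 : C (2 : L)⁻¹ * 2 = (1 : L[X]) := by
    have : (2 : L[X]) = C 2 := (map_ofNat C 2).symm
    rw [this, ← C_mul, inv_mul_cancel₀ two_ne_zero, C_1]
  refine (IsCoprime.mul_left ⟨C (β * (4 * α * q))⁻¹ * C β * 3 * P, - C (β * (4 * α * q))⁻¹, ?_⟩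
    ⟨C (2 : L)⁻¹ * C (β * (4 * α * q))⁻¹ * C β * 3, C (2 : L)⁻¹ * C (β * (4 * α * q))⁻¹, ?_⟩).neg_left
  · linear_combination e1
  · linear_combination (C (2 : L)⁻¹ * 2) * e1 + e2

end Model

section Main

variable {R : Type v} [CommRing R] {L : Type w} [Field L] {M : Type u} [Field M]

theorem comp_red (π : R →+* L) {ε s : R} (hε : π ε = 0) (A : R[X]) :
    (A.comp (C s + C ε * X)).map π = C (π (A.eval s)) := by
  rw [map_comp, Polynomial.map_add, Polynomial.map_mul, map_C, map_C, map_X, hε, C_0, zero_mul,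
    add_zero, comp_C, eval_map, eval₂_at_apply]

theorem comp_natDegree (A : R[X]) (ε s : R) : (A.comp (C s + C ε * X)).natDegree ≤ A.natDegree := by
  refine natDegree_comp_le.trans ?_
  have h : (C s + C ε * X : R[X]).natDegree ≤ 1 := by
    refine (natDegree_add_le _ _).trans (max_le ?_ ?_)
    · rw [natDegree_C]
      exact Nat.zero_le _
    · exact (natDegree_C_mul_le _ _).trans natDegree_X_le
  calc A.natDegree * (C s + C ε * X : R[X]).natDegree ≤ A.natDegree * 1 :=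
        Nat.mul_le_mul_left _ h
    _ = A.natDegree := mul_one _

theorem abs_main [IsDomain R] [CharZero L] [CharZero M] (π : R →+* L) (ι : R →+* M) (hι : Function.Injective ι)
    {ε s F F' u v g : R} {A2 A3 A4 : R[X]} (hε : ε ≠ 0) (hπε : π ε = 0) (hF : F = ε ^ 2 * F')
    (hg : u + s * v = ε ^ 2 * g) (hF' : π F' ≠ 0) (hv : π v ≠ 0) (h2 : A2.natDegree ≤ 2)
    (h3 : A3.natDegree ≤ 3) {q c a : L} (hq : π (A2.eval s) = q) (hc : π (A3.eval s) = c)
    (ha : π (A4.eval s) = a) (hq0 : q ≠ 0) (hd : c ^ 2 - 4 * q * a ≠ 0) {cu de : R[X]}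
    (hcu : cu = 8 * (8 * C F ^ 2 * A3 - 4 * C F * (C u + C v * X) * A2 + (C u + C v * X) ^ 3))
    (hde : de = (4 * C F * A2 - (C u + C v * X) ^ 2) ^ 2 - 64 * C F ^ 3 * A4) :
    ι (cu.coeff 3) ≠ 0 ∧ IsCoprime (cu.map ι) (derivative (cu.map ι)) ∧
      IsCoprime (cu.map ι) (de.map ι) := by
  obtain ⟨α, hα⟩ : ∃ α, α = π F' := ⟨_, rfl⟩
  obtain ⟨β, hβ⟩ : ∃ β, β = π v := ⟨_, rfl⟩
  rw [← hα] at hF'
  rw [← hβ] at hv
  obtain ⟨ℓ, hℓ⟩ : ∃ ℓ : R[X], ℓ = C s + C ε * X := ⟨_, rfl⟩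
  obtain ⟨B2, hB2⟩ : ∃ B, B = A2.comp ℓ := ⟨_, rfl⟩
  obtain ⟨B3, hB3⟩ : ∃ B, B = A3.comp ℓ := ⟨_, rfl⟩
  obtain ⟨B4, hB4⟩ : ∃ B, B = A4.comp ℓ := ⟨_, rfl⟩
  obtain ⟨b, hb⟩ : ∃ b : R[X], b = C (ε * g) + C v * X := ⟨_, rfl⟩
  obtain ⟨c', hc'⟩ : ∃ c' : R[X], c' = b ^ 3 - 4 * C F' * b * B2 + 8 * C ε * C F' ^ 2 * B3 :=
    ⟨_, rfl⟩
  obtain ⟨d', hd'⟩ : ∃ d' : R[X], d' = (4 * C F' * B2 - b ^ 2) ^ 2 - 64 * C ε ^ 2 * C F' ^ 3 * B4 :=
    ⟨_, rfl⟩
  obtain ⟨e', he'⟩ : ∃ e' : R[X], e' = C F' * B3 ^ 2 - b ^ 2 * B4 := ⟨_, rfl⟩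
  have hA1 : (C u + C v * X : R[X]).comp ℓ = C ε * b := by
    rw [add_comp, mul_comp, C_comp, C_comp, X_comp, hℓ, hb]
    have h5 : (C u : R[X]) = C ε ^ 2 * C g - C s * C v := by
      rw [← C_pow, ← C_mul, ← C_mul, ← C_sub]
      congr 1
      linear_combination hg
    rw [h5, C_mul]
    ring
  have hn : ∀ n : ℕ, ((n : R[X])).comp ℓ = n := fun n => natCast_comp
  have n4 : ((4 : R[X])).comp ℓ = 4 := by exact_mod_cast hn 4
  have n8 : ((8 : R[X])).comp ℓ = 8 := by exact_mod_cast hn 8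
  have n64 : ((64 : R[X])).comp ℓ = 64 := by exact_mod_cast hn 64
  have hcc : cu.comp ℓ = 8 * C ε ^ 3 * c' := by
    rw [hcu]
    simp only [mul_comp, add_comp, sub_comp, pow_comp, n8, n4, C_comp] at hA1 ⊢
    rw [hA1, ← hB2, ← hB3, hF, hc']
    simp only [C_mul, C_pow]
    ring
  have hdd : de.comp ℓ = C ε ^ 4 * d' := by
    rw [hde]
    simp only [mul_comp, add_comp, sub_comp, pow_comp, n64, n4, C_comp] at hA1 ⊢
    rw [hA1, ← hB2, ← hB4, hF, hd']
    simp only [C_mul, C_pow]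
    ring
  have hrel : b ^ 2 * d' = 64 * C ε ^ 2 * C F' ^ 3 * e' + c' * (c' - 16 * C ε * C F' ^ 2 * B3) := by
    rw [hc', hd', he']
    ring
  -- reductions
  have r2 : B2.map π = C q := by rw [hB2, hℓ, comp_red π hπε, hq]
  have r3 : B3.map π = C c := by rw [hB3, hℓ, comp_red π hπε, hc]
  have r4 : B4.map π = C a := by rw [hB4, hℓ, comp_red π hπε, ha]
  have rb : b.map π = C β * X := by
    rw [hb, Polynomial.map_add, Polynomial.map_mul, map_C, map_C, map_X, map_mul, hπε, zero_mul,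
      C_0, zero_add, hβ]
  have rc : c'.map π = (C β * X) ^ 3 - C (4 * α * q) * (C β * X) := by
    rw [hc']
    simp only [Polynomial.map_add, Polynomial.map_sub, Polynomial.map_mul, Polynomial.map_pow,
      Polynomial.map_ofNat, map_C, rb, r2, r3, hπε, ← hα]
    rw [C_mul, C_mul, C_0, show (C (4 : L) : L[X]) = 4 from map_ofNat C 4]
    ring
  have rd : d'.map π = (C (4 * α * q) - (C β * X) ^ 2) ^ 2 := by
    rw [hd']
    simp only [Polynomial.map_sub, Polynomial.map_mul, Polynomial.map_pow,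
      Polynomial.map_ofNat, map_C, rb, r2, r4, hπε, ← hα]
    rw [C_mul, C_mul, C_0, show (C (4 : L) : L[X]) = 4 from map_ofNat C 4]
    ring
  have re : e'.map π = C (α * c ^ 2) - (C β * X) ^ 2 * C a := by
    rw [he']
    simp only [Polynomial.map_sub, Polynomial.map_mul, Polynomial.map_pow, map_C, rb, r3, r4, ← hα]
    rw [C_mul, C_pow]
  -- the degree
  have hdeg : c'.natDegree ≤ 3 := by
    have hb1 : b.natDegree ≤ 1 := by
      rw [hb, add_comm]
      exact natDegree_linear_le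
    have hB2d : B2.natDegree ≤ 2 := by
      rw [hB2, hℓ]
      exact (comp_natDegree _ _ _).trans h2
    have hB3d : B3.natDegree ≤ 3 := by
      rw [hB3, hℓ]
      exact (comp_natDegree _ _ _).trans h3
    have n4' : ((4 : R[X])).natDegree = 0 := by exact_mod_cast natDegree_natCast (R := R) 4
    have n8' : ((8 : R[X])).natDegree = 0 := by exact_mod_cast natDegree_natCast (R := R) 8
    have e1 : (b ^ 3).natDegree ≤ 3 := by
      have := natDegree_pow_le (p := b) (n := 3)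
      omega
    have e2 : (4 * C F' * b * B2).natDegree ≤ 3 := by
      have a1 := natDegree_mul_le (p := 4 * C F' * b) (q := B2)
      have a2 := natDegree_mul_le (p := 4 * C F') (q := b)
      have a3 := natDegree_mul_le (p := (4 : R[X])) (q := C F')
      rw [natDegree_C] at a3
      omega
    have e3 : (8 * C ε * C F' ^ 2 * B3).natDegree ≤ 3 := by
      have a1 := natDegree_mul_le (p := 8 * C ε * C F' ^ 2) (q := B3)
      have a2 := natDegree_mul_le (p := 8 * C ε) (q := C F' ^ 2)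
      have a3 := natDegree_mul_le (p := (8 : R[X])) (q := C ε)
      rw [natDegree_C] at a3
      rw [← C_pow, natDegree_C, C_pow] at a2
      omega
    rw [hc']
    have e4 := natDegree_add_le (b ^ 3 - 4 * C F' * b * B2) (8 * C ε * C F' ^ 2 * B3)
    have e5 := natDegree_sub_le (b ^ 3) (4 * C F' * b * B2)
    exact e4.trans (max_le (e5.trans (max_le e1 e2)) e3)
  have hlead : π (c'.coeff 3) ≠ 0 := by
    rw [← coeff_map, rc, mul_pow, ← C_pow, ← mul_assoc, ← C_mul, coeff_sub, coeff_C_mul,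
      coeff_X_pow, if_pos rfl, mul_one, coeff_C_mul, coeff_X, if_neg (by norm_num), mul_zero,
      sub_zero]
    exact pow_ne_zero _ hv
  have hcd : IsCoprime (c'.map ι) (derivative (c'.map ι)) := by
    rw [derivative_map]
    refine coprime_of_red π ι hι hdeg hlead ?_
    rw [← derivative_map, rc]
    exact model_d hF' hv hq0
  obtain ⟨l, hl⟩ : ∃ l : R, π l * (4 * α * q) ^ 2 + α * c ^ 2 ≠ 0 := by
    by_cases hc0 : c = 0
    · refine ⟨1, ?_⟩
      rw [hc0, map_one, one_mul]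
      have : (4 * α * q) ^ 2 + α * 0 ^ 2 = (4 * α * q) ^ 2 := by ring
      rw [this]
      exact pow_ne_zero _ (mul_ne_zero (mul_ne_zero (by norm_num) hF') hq0)
    · refine ⟨0, ?_⟩
      rw [map_zero, zero_mul, zero_add]
      exact mul_ne_zero hF' (pow_ne_zero _ hc0)
  have hce : IsCoprime (c'.map ι) ((C l * d' + e').map ι) := by
    refine coprime_of_red π ι hι hdeg hlead ?_
    rw [Polynomial.map_add, Polynomial.map_mul, map_C, rc, rd, re]
    exact model_e hF' hd hl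
  have hιε : ι ε ≠ 0 := fun h0 => hε (hι (h0.trans (map_zero ι).symm))
  have hιF : ι F' ≠ 0 := by
    intro h0
    have h1 : F' = 0 := hι (h0.trans (map_zero ι).symm)
    apply hF'
    rw [hα, h1, map_zero]
  have hcdd : IsCoprime (c'.map ι) (d'.map ι) := by
    obtain ⟨x, y, hxy⟩ := hce
    have h5 := congrArg (Polynomial.map ι) hrel
    simp only [Polynomial.map_add, Polynomial.map_sub, Polynomial.map_mul, Polynomial.map_pow,
      Polynomial.map_ofNat, map_C] at h5 hxy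
    have h6 : (64 * ι ε ^ 2 * ι F' ^ 3) ≠ 0 :=
      mul_ne_zero (mul_ne_zero (by norm_num) (pow_ne_zero _ hιε)) (pow_ne_zero _ hιF)
    have h7 : C (64 * ι ε ^ 2 * ι F' ^ 3)⁻¹ * (64 * C (ι ε) ^ 2 * C (ι F') ^ 3) = (1 : M[X]) := by
      have h8 : (64 * C (ι ε) ^ 2 * C (ι F') ^ 3 : M[X]) = C (64 * ι ε ^ 2 * ι F' ^ 3) := by
        rw [C_mul, C_mul, C_pow, C_pow, show (C (64 : M) : M[X]) = 64 from map_ofNat C 64]
      rw [h8, ← C_mul, inv_mul_cancel₀ h6, C_1]
    refine ⟨x - y * C (64 * ι ε ^ 2 * ι F' ^ 3)⁻¹ *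
      (c'.map ι - 16 * C (ι ε) * C (ι F') ^ 2 * B3.map ι),
      y * (C (ι l) + C (64 * ι ε ^ 2 * ι F' ^ 3)⁻¹ * (b.map ι) ^ 2), ?_⟩
    linear_combination hxy + y * C (64 * ι ε ^ 2 * ι F' ^ 3)⁻¹ * h5 + y * e'.map ι * h7
  have hℓι : ∀ p : R[X], (p.comp ℓ).map ι = (p.map ι).comp (C (ι s) + C (ι ε) * X) := by
    intro p
    rw [Polynomial.map_comp, hℓ, Polynomial.map_add, Polynomial.map_mul, map_C, map_C, map_X]
  have u1 : IsUnit (8 * C (ι ε) ^ 3 : M[X]) := by
    have : (8 * C (ι ε) ^ 3 : M[X]) = C (8 * ι ε ^ 3) := by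
      rw [C_mul, C_pow, show (C (8 : M) : M[X]) = 8 from map_ofNat C 8]
    rw [this, isUnit_C, isUnit_iff_ne_zero]
    exact mul_ne_zero (by norm_num) (pow_ne_zero _ hιε)
  have u2 : IsUnit (C (ι ε) ^ 4 : M[X]) := by
    rw [← C_pow, isUnit_C, isUnit_iff_ne_zero]
    exact pow_ne_zero _ hιε
  have u3 : IsUnit (C (ι ε) : M[X]) := by
    rw [isUnit_C, isUnit_iff_ne_zero]
    exact hιε
  have hcι : (cu.map ι).comp (C (ι s) + C (ι ε) * X) = 8 * C (ι ε) ^ 3 * c'.map ι := by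
    rw [← hℓι, hcc]
    simp only [Polynomial.map_mul, Polynomial.map_pow, Polynomial.map_ofNat, map_C]
  have hdι : (de.map ι).comp (C (ι s) + C (ι ε) * X) = C (ι ε) ^ 4 * d'.map ι := by
    rw [← hℓι, hdd]
    simp only [Polynomial.map_mul, Polynomial.map_pow, map_C]
  refine ⟨fun h0 => ?_, coprime_comp hιε (s := ι s) ?_, coprime_comp hιε (s := ι s) ?_⟩
  · have h4 : (cu.map ι).natDegree ≤ 3 := by
      have h9 : (cu.map ι).natDegree = ((cu.map ι).comp (C (ι s) + C (ι ε) * X)).natDegree := by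
        have h10 : (C (ι s) + C (ι ε) * X : M[X]).natDegree = 1 := by
          rw [add_comm]
          exact natDegree_linear hιε
        rw [natDegree_comp, h10, mul_one]
      rw [h9, hcι]
      have h11 := natDegree_mul_le (p := 8 * C (ι ε) ^ 3) (q := c'.map ι)
      rw [natDegree_eq_zero_of_isUnit u1, zero_add] at h11
      exact h11.trans (natDegree_map_le.trans hdeg)
    have h5 : (cu.map ι).natDegree ≤ 2 := by
      by_contra hcon
      have h6 : (cu.map ι).natDegree = 3 := by omega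
      have h7 : (cu.map ι).leadingCoeff = 0 := by
        rw [leadingCoeff, h6, coeff_map, h0]
      rw [leadingCoeff_eq_zero] at h7
      rw [h7, natDegree_zero] at h6
      omega
    have h6 := (comp_natDegree (cu.map ι) (ι ε) (ι s)).trans h5
    have h7 := coeff_eq_zero_of_natDegree_lt (lt_of_le_of_lt h6 (by norm_num : 2 < 3))
    have h8 : (8 * C (ι ε) ^ 3 : M[X]) = C (8 * ι ε ^ 3) := by
      rw [C_mul, C_pow, show (C (8 : M) : M[X]) = 8 from map_ofNat C 8]
    rw [hcι, h8, coeff_C_mul, coeff_map] at h7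
    rcases mul_eq_zero.mp h7 with h9 | h9
    · exact mul_ne_zero (by norm_num) (pow_ne_zero _ hιε) h9
    · apply hlead
      rw [hι (h9.trans (map_zero ι).symm), map_zero]
  · have h5 : (derivative (cu.map ι)).comp (C (ι s) + C (ι ε) * X) * C (ι ε) =
        8 * C (ι ε) ^ 3 * derivative (c'.map ι) := by
      have h6 := congrArg derivative hcι
      have h7 : (8 * C (ι ε) ^ 3 : M[X]) = C (8 * ι ε ^ 3) := by
        rw [C_mul, C_pow, show (C (8 : M) : M[X]) = 8 from map_ofNat C 8]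
      rw [derivative_comp, h7, derivative_C_mul, ← h7, derivative_add, derivative_C, zero_add,
        derivative_C_mul, derivative_X, mul_one] at h6
      rw [mul_comm, h6]
    have h6 : IsCoprime (8 * C (ι ε) ^ 3 * c'.map ι) (8 * C (ι ε) ^ 3 * derivative (c'.map ι)) :=
      (isCoprime_mul_unit_left_left u1 _ _).mpr ((isCoprime_mul_unit_left_right u1 _ _).mpr hcd)
    rw [← hcι, ← h5] at h6
    exact (isCoprime_mul_unit_right_right u3 _ _).mp h6
  · rw [hcι, hdι]
    exact (isCoprime_mul_unit_left_left u1 _ _).mpr ((isCoprime_mul_unit_left_right u2 _ _).mpr hcdd)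

end Main

end Pool.Agent.Helper93K9.DC
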