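import Pool.Agent.Helper93K9.DC.Tan
import Pool.Agent.R867.H.CoMove

/-! The general tangent line of a plane curve which is not a union of lines is simple. -/

set_option autoImplicit false

namespace Pool.Agent.Helper93K9.DC

open MvPolynomial Pool.Agent.R867.Mov Pool.Agent.R867.J Pool.Agent.R867.H Pool.Agent.R867.D

universe u v w

section DL

variable {k : Type u} [CommRing k] {K : Type v} [Field K] [Algebra k K]

/-- a derivation applied to the coefficients -/
noncomputable def dl (d : Derivation k K K) (p : Polynomial K) : Polynomial K :=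
  ∑ n ∈ Finset.range (p.natDegree + 1), Polynomial.monomial n (d (p.coeff n))

theorem coeff_dl (d : Derivation k K K) (p : Polynomial K) (m : ℕ) :
    (dl d p).coeff m = d (p.coeff m) := by
  unfold dl
  rw [Polynomial.finsetSum_coeff]
  simp only [Polynomial.coeff_monomial]
  rw [Finset.sum_ite_eq']
  split_ifs with h
  · rfl
  · rw [Finset.mem_range] at h
    rw [Polynomial.coeff_eq_zero_of_natDegree_lt (by omega), map_zero]

theorem dl_add (d : Derivation k K K) (p q : Polynomial K) : dl d (p + q) = dl d p + dl d q := by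
  ext m
  rw [coeff_dl, Polynomial.coeff_add, Polynomial.coeff_add, coeff_dl, coeff_dl, map_add]

theorem dl_C (d : Derivation k K K) (a : K) : dl d (Polynomial.C a) = Polynomial.C (d a) := by
  ext m
  rw [coeff_dl, Polynomial.coeff_C, Polynomial.coeff_C]
  split_ifs
  · rfl
  · rw [map_zero]

theorem dl_X (d : Derivation k K K) : dl d Polynomial.X = 0 := by
  ext m
  rw [coeff_dl, Polynomial.coeff_X, Polynomial.coeff_zero]
  split_ifs
  · rw [Derivation.map_one_eq_zero]
  · rw [map_zero]

theorem dl_mul (d : Derivation k K K) (p q : Polynomial K) :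
    dl d (p * q) = dl d p * q + p * dl d q := by
  ext m
  rw [coeff_dl, Polynomial.coeff_mul, map_sum, Polynomial.coeff_add, Polynomial.coeff_mul,
    Polynomial.coeff_mul, ← Finset.sum_add_distrib]
  refine Finset.sum_congr rfl fun x _ => ?_
  rw [Derivation.leibniz, coeff_dl, coeff_dl, smul_eq_mul, smul_eq_mul]
  ring

end DL

section Star

variable {k : Type u} [Field k] {K : Type v} [Field K] [Algebra k K] {N : ℕ} {i j : Fin N}
  {η : Fin N → K} {s : K}

theorem vec_i (hij : i ≠ j) (s : K) : vec i j s i = 1 := by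
  unfold vec
  rw [if_pos rfl, if_neg hij, add_zero]

theorem vec_j (hij : i ≠ j) (s : K) : vec i j s j = s := by
  unfold vec
  rw [if_pos rfl, if_neg (Ne.symm hij), zero_add]

theorem vec_l (s : K) (l : Fin N) (h1 : l ≠ i) (h2 : l ≠ j) : vec i j s l = 0 := by
  unfold vec
  rw [if_neg h1, if_neg h2, add_zero]

/-- the motion of the tangent line -/
theorem star (d : Derivation k K K) (hd : ∀ l, d (η l) = vec i j s l)
    (G : MvPolynomial (Fin N) k) :
    dl d (lin η (vec i j s) G) = Polynomial.derivative (lin η (vec i j s) G) +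
      Polynomial.X * Polynomial.C (d s) * lin η (vec i j s) (pderiv j G) := by
  induction G using MvPolynomial.induction_on with
  | C c =>
    simp only [lin_C, dl_C, d.map_algebraMap, Polynomial.derivative_C, pderiv_C, map_zero,
      mul_zero, add_zero]
  | add p q hp hq =>
    rw [map_add, dl_add, hp, hq]
    simp only [map_add]
    ring
  | mul_X p l hp =>
    rw [map_mul, dl_mul, hp, lin_X, dl_add, dl_C, dl_mul, dl_X, dl_C, hd, Polynomial.derivative_mul,
      Polynomial.derivative_add, Polynomial.derivative_C, Polynomial.derivative_mul,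
      Polynomial.derivative_X, Polynomial.derivative_C, pderiv_mul, map_add, map_mul, map_mul,
      lin_X]
    have h1 : d (vec i j s l) = if l = j then d s else 0 := by
      unfold vec
      rw [map_add]
      split_ifs <;> simp
    rw [h1]
    by_cases hl : l = j
    · rw [if_pos hl, hl, pderiv_X_self, map_one]
      ring
    · rw [if_neg hl, pderiv_X_of_ne hl, map_zero, map_zero]
      ring

theorem star_coeff (d : Derivation k K K) (hd : ∀ l, d (η l) = vec i j s l)
    (G : MvPolynomial (Fin N) k) (n : ℕ) :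
    d ((lin η (vec i j s) G).coeff (n + 1)) = (lin η (vec i j s) G).coeff (n + 2) * (n + 2) +
      d s * (lin η (vec i j s) (pderiv j G)).coeff n := by
  have h := congrArg (fun p => Polynomial.coeff p (n + 1)) (star d hd G)
  change (dl d (lin η (vec i j s) G)).coeff (n + 1) = (Polynomial.derivative
    (lin η (vec i j s) G) + Polynomial.X * Polynomial.C (d s) *
      lin η (vec i j s) (pderiv j G)).coeff (n + 1) at h
  rw [coeff_dl, Polynomial.coeff_add, Polynomial.coeff_derivative, mul_assoc,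
    Polynomial.coeff_X_mul, Polynomial.coeff_C_mul] at h
  rw [h]
  push_cast
  ring

theorem step_deg (d : Derivation k K K) (hd : ∀ l, d (η l) = vec i j s l) (hs : d s ≠ 0)
    {G : MvPolynomial (Fin N) k} {m : ℕ}
    (h : ∀ n, m + 1 ≤ n → (lin η (vec i j s) G).coeff n = 0) :
    ∀ n, m ≤ n → (lin η (vec i j s) (pderiv j G)).coeff n = 0 := by
  intro n hn
  have h1 := star_coeff d hd G n
  rw [h (n + 1) (by omega), h (n + 2) (by omega), map_zero, zero_mul, zero_add] at h1
  exact (mul_eq_zero.mp h1.symm).resolve_left hs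

end Star

section Deg

variable {k : Type u} [Field k] [CharZero k] {N : ℕ} {f : MvPolynomial (Fin N) k} {j : Fin N}

theorem deg_pderiv_ge {n : ℕ} (h : n + 1 ≤ degreeOf j f) : n ≤ degreeOf j (pderiv j f) := by
  classical
  by_contra hcon
  have h1 : degreeOf j f ≤ n := by
    rw [degreeOf_le_iff]
    intro m hm
    by_contra hmj
    have h3 : m - Finsupp.single j 1 + Finsupp.single j 1 = m := by
      ext i
      by_cases hi : i = j
      · subst hi
        simp
        omega
      · simp [Ne.symm hi]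
    have h4 : coeff (m - Finsupp.single j 1) (pderiv j f) ≠ 0 := by
      rw [coeff_pderiv, h3]
      refine mul_ne_zero (mem_support_iff.mp hm) ?_
      norm_cast
    have h5 := monomial_le_degreeOf j (mem_support_iff.mpr h4)
    rw [Finsupp.tsub_apply, Finsupp.single_eq_same] at h5
    omega
  omega

theorem deg_le_two (h : f ∣ pderiv j (pderiv j (pderiv j f))) : degreeOf j f ≤ 2 := by
  by_contra hcon
  push Not at hcon
  have h1 := deg_pderiv_ge (f := f) (j := j) (n := 2) (by omega)
  have h2 := deg_pderiv_ge (f := pderiv j f) (j := j) (n := 1) (by omega)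
  have h3 : pderiv j (pderiv j (pderiv j f)) ≠ 0 := pderiv_ne_zero h2
  have h4 := degreeOf_le_of_dvd h h3 j
  have h5 := degreeOf_pderiv j f
  have h6 := degreeOf_pderiv j (pderiv j f)
  have h7 := degreeOf_pderiv j (pderiv j (pderiv j f))
  omega

end Deg

section Main

variable {k K : Type u} [Field k] [Field K] [Algebra k K] {N : ℕ} {f : MvPolynomial (Fin N) k}
  {η : Fin N → K} {i j : Fin N}

/-- a point with sufficiently many independent coordinates -/
theorem mem_cl_of [CharZero k] (hη : GP f η) (hf : f ≠ 0) (hij : i ≠ j) (hdi : degreeOf i f ≠ 0)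
    (hdj : degreeOf j f ≠ 0) {ζ : Fin N → K} (hζ : ∀ l, l ≠ i → l ≠ j → ζ l = η l)
    (h0 : aeval ζ f = 0) (h1 : aeval ζ (pderiv i f) = 0) :
    ζ i ∈ cl k (η '' {l | l ≠ i ∧ l ≠ j}) := by
  classical
  by_contra hcon
  have hind := indep_of hf hdj (fun P => (hη.zero_iff P).mp)
  have h2 := indep_update (j := (⟨i, hij⟩ : {l : Fin N // l ≠ j})) (z := ζ i) hind (by
    have h3 : (fun l : {l : Fin N // l ≠ j} => η l) '' {(⟨i, hij⟩ : {l : Fin N // l ≠ j})}ᶜ =
        η '' {l | l ≠ i ∧ l ≠ j} := by
      ext z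
      constructor
      · rintro ⟨⟨l, hl⟩, hl', rfl⟩
        refine ⟨l, ⟨?_, hl⟩, rfl⟩
        rintro rfl
        exact hl' rfl
      · rintro ⟨l, ⟨h4, h5⟩, rfl⟩
        refine ⟨⟨l, h5⟩, ?_, rfl⟩
        intro h6
        exact h4 (congrArg Subtype.val h6)
    rw [h3]
    exact hcon)
  have h4 : Function.update (fun l : {l : Fin N // l ≠ j} => η l) ⟨i, hij⟩ (ζ i) =
      fun l : {l : Fin N // l ≠ j} => ζ l := by
    funext l
    by_cases h5 : l = ⟨i, hij⟩
    · rw [h5, Function.update_self]
    · rw [Function.update_of_ne h5]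
      refine (hζ l (fun h6 => h5 (Subtype.ext h6)) l.2).symm
  rw [h4] at h2
  have h5 := (generic_iff hη h0 hdj hf h2 (pderiv i f)).mp h1
  exact not_dvd_pderiv (Nat.one_le_iff_ne_zero.mpr hdi) h5

theorem simple_or_conic [CharZero k] (hη : GP f η) (hf : f ≠ 0) (hij : i ≠ j)
    (hd : ∀ m ∈ f.support, m i + m j ≤ 4) (hq2 : aeval η (q2 i j f) ≠ 0) :
    (∃ v, Tang f i j η v) ∨ degreeOf j f ≤ 2 := by
  have hcK : CharZero K := charZero_of_injective_algebraMap (algebraMap k K).injective
  obtain ⟨hdi, hdj⟩ := deg_ne_of_q2 hq2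
  obtain ⟨α, hα⟩ : ∃ α, α = aeval η (pderiv i f) := ⟨_, rfl⟩
  obtain ⟨β, hβ⟩ : ∃ β, β = aeval η (pderiv j f) := ⟨_, rfl⟩
  have hα0 : α ≠ 0 := by
    rw [hα]
    exact GP.pderiv_ne (fun P => (hη.zero_iff P).mp) hdi
  have hβ0 : β ≠ 0 := by
    rw [hβ]
    exact GP.pderiv_ne (fun P => (hη.zero_iff P).mp) hdj
  have hηf : aeval η f = 0 := (hη.zero_iff f).mpr dvd_rfl
  obtain ⟨s, hs⟩ : ∃ s, s = - α / β := ⟨_, rfl⟩
  have hsβ : s * β = - α := by rw [hs]; exact div_mul_cancel₀ _ hβ0
  obtain ⟨d', hd'l, hd'i, hd'j⟩ := exists_tder hη hf hij hdi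
  rw [← hβ] at hd'i
  rw [← hα] at hd'j
  obtain ⟨d, hdd⟩ : ∃ d : Derivation k K K, d = β⁻¹ • d' := ⟨_, rfl⟩
  have hdη : ∀ l, d (η l) = vec i j s l := by
    intro l
    rw [hdd, Derivation.smul_apply, smul_eq_mul]
    by_cases h1 : l = i
    · rw [h1, vec_i hij, hd'i, inv_mul_cancel₀ hβ0]
    · by_cases h2 : l = j
      · rw [h2, vec_j hij, hd'j, hs]
        ring
      · rw [vec_l s l h1 h2, hd'l l h1 h2, mul_zero]
  obtain ⟨v, hv⟩ : ∃ v : Fin N → K, v = vec i j s := ⟨_, rfl⟩
  obtain ⟨p, hp⟩ : ∃ p, p = lin η v f := ⟨_, rfl⟩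
  have hvl : ∀ l, l ≠ i → l ≠ j → v l = 0 := fun l h1 h2 => by rw [hv]; exact vec_l s l h1 h2
  have hpd : p.natDegree ≤ 4 := by
    rw [hp]
    exact lin_natDegree hvl hij hd
  have hp0 : p.coeff 0 = 0 := by
    have h1 := lin_eval η v 0 f
    simp only [zero_mul, add_zero] at h1
    rw [Polynomial.coeff_zero_eq_eval_zero, hp, h1]
    exact hηf
  have hder := lin_der (x := η) (v := v) hij hvl f
  rw [← hp, hv, vec_i hij, vec_j hij, ← hv, Polynomial.C_1, one_mul] at hder
  have hp1 : p.coeff 1 = 0 := by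
    have h1 := congrArg (fun z => Polynomial.eval 0 z) hder
    simp only [Polynomial.eval_add, Polynomial.eval_mul, Polynomial.eval_C, lin_eval, zero_mul,
      add_zero] at h1
    rw [← Polynomial.coeff_zero_eq_eval_zero, Polynomial.coeff_derivative] at h1
    change p.coeff (0 + 1) * ((0 : ℕ) + 1) = aeval η (pderiv i f) + s * aeval η (pderiv j f) at h1
    rw [← hα, ← hβ, hsβ] at h1
    norm_num at h1
    exact h1
  have hq0 : p.coeff 2 ≠ 0 := by
    intro h0
    apply hq2
    have h1 := lin_d2 (x := η) (v := v) hij hvl f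
    rw [← hp, coeff_two_eval, h0, hv, vec_i hij, vec_j hij] at h1
    have e2 : aeval η (q2 i j f) = β ^ 2 * aeval η (pderiv i (pderiv i f)) -
        2 * α * β * aeval η (pderiv i (pderiv j f)) + α ^ 2 * aeval η (pderiv j (pderiv j f)) := by
      unfold q2
      simp only [map_add, map_sub, map_mul, map_pow, map_ofNat, ← hα, ← hβ]
    rw [e2]
    have e3 : α = - (s * β) := by rw [hsβ]; ring
    rw [e3]
    linear_combination (-β ^ 2) * h1
  have hds : d s ≠ 0 := by
    intro h0
    have h1 := star_coeff d hdη f 0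
    rw [← hv, ← hp, h0, zero_mul, add_zero] at h1
    change d (p.coeff 1) = p.coeff 2 * _ at h1
    rw [hp1, map_zero] at h1
    apply hq0
    have h2 : (((0 : ℕ) : K) + 2) ≠ 0 := by norm_num
    exact (mul_eq_zero.mp h1.symm).resolve_right h2
  obtain ⟨q, hq⟩ : ∃ q, q = p.coeff 2 := ⟨_, rfl⟩
  obtain ⟨c, hc⟩ : ∃ c, c = p.coeff 3 := ⟨_, rfl⟩
  obtain ⟨a, ha⟩ : ∃ a, a = p.coeff 4 := ⟨_, rfl⟩
  rw [← hq] at hq0
  have hpp : p = Polynomial.X ^ 2 *
      (Polynomial.C q + Polynomial.C c * Polynomial.X + Polynomial.C a * Polynomial.X ^ 2) := by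
    rw [p.as_sum_range_C_mul_X_pow' (n := 5) (by omega)]
    simp only [Finset.sum_range_succ, Finset.sum_range_zero, hp0, hp1, ← hq, ← hc, ← ha,
      Polynomial.C_0]
    ring
  by_cases hdisc : c ^ 2 - 4 * q * a = 0
  swap
  · left
    refine ⟨v, hvl, Or.inl ?_, q, c, a, hq0, hdisc, ?_⟩
    · rw [← hα]
      exact hα0
    · rw [← hp]
      exact hpp
  right
  by_cases ha0 : a = 0
  · -- tangent at infinity
    have hc0 : c = 0 := by
      rw [ha0] at hdisc
      have : c ^ 2 = 0 := by linear_combination hdisc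
      exact pow_eq_zero_iff (by norm_num) |>.mp this
    have h3 : ∀ n, 2 + 1 ≤ n → (lin η (vec i j s) f).coeff n = 0 := by
      intro n hn
      rw [← hv, ← hp]
      by_cases h4 : n = 3
      · rw [h4, ← hc, hc0]
      · by_cases h5 : n = 4
        · rw [h5, ← ha, ha0]
        · exact Polynomial.coeff_eq_zero_of_natDegree_lt (by omega)
    have h4 := step_deg d hdη hds h3
    have h5 := step_deg d hdη hds (m := 1) h4
    have h6 := step_deg d hdη hds (m := 0) h5 0 le_rfl
    rw [Polynomial.coeff_zero_eq_eval_zero, lin_eval] at h6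
    simp only [zero_mul, add_zero] at h6
    exact deg_le_two ((hη.zero_iff _).mp h6)
  · -- tangent at a second point
    exfalso
    have hc0 : c ≠ 0 := by
      rintro rfl
      have h1 : 4 * q * a = 0 := by linear_combination -hdisc
      exact mul_ne_zero (mul_ne_zero (by norm_num) hq0) ha0 h1
    obtain ⟨T, hT⟩ : ∃ T, T = - c / (2 * a) := ⟨_, rfl⟩
    have h2a : (2 * a) ≠ 0 := mul_ne_zero two_ne_zero ha0
    have hTa : T * (2 * a) = - c := by rw [hT]; exact div_mul_cancel₀ _ h2a
    have hT0 : T ≠ 0 := by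
      rintro rfl
      rw [zero_mul] at hTa
      exact hc0 (neg_eq_zero.mp hTa.symm)
    have hq' : q = a * T ^ 2 := by
      have h1 : 4 * a * (q - a * T ^ 2) = 0 := by
        linear_combination -hdisc - (2 * a * T - c) * hTa
      have h2 : q - a * T ^ 2 = 0 :=
        (mul_eq_zero.mp h1).resolve_left (mul_ne_zero (by norm_num) ha0)
      exact sub_eq_zero.mp h2
    have hp2 : p = Polynomial.C a * Polynomial.X ^ 2 * (Polynomial.X - Polynomial.C T) ^ 2 := by
      have hc' : c = - (T * (2 * a)) := by rw [hTa, neg_neg]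
      rw [hpp, hq', hc']
      simp only [Polynomial.C_mul, Polynomial.C_pow, Polynomial.C_neg]
      rw [show (Polynomial.C (2 : K)) = 2 from map_ofNat Polynomial.C 2]
      ring
    obtain ⟨ζ, hζ⟩ : ∃ ζ : Fin N → K, ζ = fun l => η l + T * v l := ⟨_, rfl⟩
    have hζf : aeval ζ f = 0 := by
      rw [hζ, ← lin_eval, ← hp, hp2]
      simp
    have hζl : ∀ l, l ≠ i → l ≠ j → ζ l = η l := by
      intro l h1 h2
      rw [hζ]
      change η l + T * v l = η l
      rw [hvl l h1 h2, mul_zero, add_zero]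
    have hζi : ζ i = η i + T := by
      rw [hζ]
      change η i + T * v i = _
      rw [hv, vec_i hij, mul_one]
    have hζj : ζ j = η j + T * s := by
      rw [hζ]
      change η j + T * v j = _
      rw [hv, vec_j hij]
    obtain ⟨A, hA⟩ : ∃ A, A = aeval ζ (pderiv i f) := ⟨_, rfl⟩
    obtain ⟨B, hB⟩ : ∃ B, B = aeval ζ (pderiv j f) := ⟨_, rfl⟩
    have hAB : A + s * B = 0 := by
      have h1 := congrArg (fun z => Polynomial.eval T z) hder
      simp only [Polynomial.eval_add, Polynomial.eval_mul, Polynomial.eval_C, lin_eval] at h1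
      rw [← hζ, ← hA, ← hB] at h1
      rw [← h1, hp2, Polynomial.derivative_mul, Polynomial.derivative_pow]
      simp
    have hdζi : d (ζ i) = 1 + d T := by rw [hζi, map_add, hdη, vec_i hij]
    have hdζj : d (ζ j) = s + (T * d s + s * d T) := by
      rw [hζj, map_add, hdη, vec_j hij, Derivation.leibniz, smul_eq_mul, smul_eq_mul]
    have hchain := der_aeval d (x := ζ) hij (fun l h1 h2 => by
      rw [hζl l h1 h2, hdη, vec_l s l h1 h2]) f
    rw [hζf, map_zero, ← hA, ← hB, hdζi, hdζj] at hchain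
    have hB0 : B = 0 := by
      have h1 : B * (T * d s) = 0 := by linear_combination -hchain - (1 + d T) * hAB
      exact (mul_eq_zero.mp h1).resolve_right (mul_ne_zero hT0 hds)
    have hA0 : A = 0 := by
      rw [hB0, mul_zero, add_zero] at hAB
      exact hAB
    have hci := mem_cl_of hη hf hij hdi hdj hζl hζf (hA ▸ hA0)
    have hcj := mem_cl_of hη hf (Ne.symm hij) hdj hdi (fun l h1 h2 => hζl l h2 h1) hζf (hB ▸ hB0)
    have hki := der_cl d (S := η '' {l | l ≠ i ∧ l ≠ j}) (by
      rintro y ⟨m, hm, rfl⟩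
      rw [hdη, vec_l s m hm.1 hm.2]) hci
    have hkj := der_cl d (S := η '' {l | l ≠ j ∧ l ≠ i}) (by
      rintro y ⟨m, hm, rfl⟩
      rw [hdη, vec_l s m hm.2 hm.1]) hcj
    rw [hdζi] at hki
    rw [hdζj] at hkj
    exact mul_ne_zero hT0 hds (by linear_combination hkj - s * hki)

end Main

end Pool.Agent.Helper93K9.DC
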