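import Pool.Agent.Helper93K9.DC.Two

/-! Self-maps of a double cover along the lines through the generic point in a coordinate plane. -/

set_option autoImplicit false

namespace Pool.Agent.Helper93K9.DC

open MvPolynomial Pool.Agent.R867.Mov Pool.Agent.R867.J Pool.Agent.R867.H Pool.Agent.R867.D

universe u v w

/-- the equation of the double cover `y 0 ^ 2 = f (y 1, ..., y N)` -/
noncomputable def cover {k : Type u} [CommRing k] {N : ℕ} (f : MvPolynomial (Fin N) k) :
    MvPolynomial (Fin (N + 1)) k :=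
  X 0 ^ 2 - rename Fin.succ f

theorem aeval_cover {k : Type u} [CommRing k] {R : Type v} [CommRing R] [Algebra k R] {N : ℕ}
    (f : MvPolynomial (Fin N) k) (y : Fin (N + 1) → R) :
    aeval y (cover f) = y 0 ^ 2 - aeval (fun l => y l.succ) f := by
  unfold cover
  rw [map_sub, map_pow, aeval_X, aeval_rename]
  rfl

variable {k K : Type u} [Field k] [Field K] [Algebra k K] {N : ℕ} {ξ : Fin (N + 1) → K}
  {f : MvPolynomial (Fin N) k} {i j : Fin N}

theorem kill_cover [CharZero k] (hξ : GP (cover f) ξ) (hij : i ≠ j)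
    (hd : ∀ m ∈ f.support, m i + m j ≤ 4) {D1 D2 : Derivation k K K}
    (hD1 : ∀ l : Fin N, D1 (ξ l.succ) = if l = i then 1 else 0)
    (hD2 : ∀ l : Fin N, D2 (ξ l.succ) = if l = j then 1 else 0)
    {Ω : Type u} [Field Ω] (κ : K →+* Ω) {s₀ : Ω}
    (hC0 : (cub (fun l => ξ l.succ) i j f).eval₂ κ s₀ = 0)
    (hC1 : (Polynomial.derivative (cub (fun l => ξ l.succ) i j f)).eval₂ κ s₀ ≠ 0)
    (hE0 : (den (fun l => ξ l.succ) i j f).eval₂ κ s₀ ≠ 0) {a : K} (ha : Imm k a) :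
    κ (D1 a) + s₀ * κ (D2 a) = 0 := by
  have hcK : CharZero K := charZero_of_injective_algebraMap (algebraMap k K).injective
  have hcR : CharZero (Rt 1 K) :=
    charZero_of_injective_algebraMap (algebraMap K (Rt 1 K)).injective
  have hcΩ : CharZero Ω := charZero_of_injective_ringHom κ.injective
  obtain ⟨x, hx⟩ : ∃ x : Fin N → K, x = fun l => ξ l.succ := ⟨_, rfl⟩
  obtain ⟨w, hw⟩ : ∃ w, w = ξ 0 := ⟨_, rfl⟩
  rw [← hx] at hC0 hC1 hE0
  obtain ⟨F, hF⟩ : ∃ F, F = aeval x f := ⟨_, rfl⟩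
  have hwF : w ^ 2 = F := by
    have h1 := (hξ.zero_iff (cover f)).mpr dvd_rfl
    rw [aeval_cover, ← hx, ← hF, ← hw] at h1
    exact sub_eq_zero.mp h1
  obtain ⟨A0, hA0⟩ : ∃ A, A = (two x i j f).coeff 0 := ⟨_, rfl⟩
  obtain ⟨A1, hA1⟩ : ∃ A, A = (two x i j f).coeff 1 := ⟨_, rfl⟩
  obtain ⟨A2, hA2⟩ : ∃ A, A = (two x i j f).coeff 2 := ⟨_, rfl⟩
  obtain ⟨A3, hA3⟩ : ∃ A, A = (two x i j f).coeff 3 := ⟨_, rfl⟩
  obtain ⟨A4, hA4⟩ : ∃ A, A = (two x i j f).coeff 4 := ⟨_, rfl⟩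
  have hA0' : A0 = Polynomial.C F := by rw [hA0, two_coeff_zero, hF]
  have hA1' : A1 = Polynomial.C (aeval x (pderiv i f)) +
      Polynomial.C (aeval x (pderiv j f)) * Polynomial.X := by rw [hA1, two_coeff_one x hij]
  obtain ⟨cu, hcu⟩ : ∃ cu, cu = cub x i j f := ⟨_, rfl⟩
  obtain ⟨de, hde⟩ : ∃ de, de = den x i j f := ⟨_, rfl⟩
  have hcu' : cu = 8 * (8 * A0 ^ 2 * A3 - 4 * A0 * A1 * A2 + A1 ^ 3) := by
    rw [hcu, hA0, hA1, hA2, hA3]
    rfl
  have hde' : de = (4 * A0 * A2 - A1 ^ 2) ^ 2 - 64 * A0 ^ 3 * A4 := by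
    rw [hde, hA0, hA1, hA2, hA4]
    rfl
  rw [← hcu] at hC0 hC1
  rw [← hde] at hE0
  have n4 : ∀ {S : Type u} [CommRing S] (ψ : K →+* S) (s : S),
      Polynomial.eval₂ ψ s (4 : Polynomial K) = 4 := fun ψ s => by
    exact_mod_cast Polynomial.eval₂_natCast ψ s 4
  have n2 : ∀ {S : Type u} [CommRing S] (ψ : K →+* S) (s : S),
      Polynomial.eval₂ ψ s (2 : Polynomial K) = 2 := fun ψ s => by
    exact_mod_cast Polynomial.eval₂_natCast ψ s 2
  have n8 : ∀ {S : Type u} [CommRing S] (ψ : K →+* S) (s : S),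
      Polynomial.eval₂ ψ s (8 : Polynomial K) = 8 := fun ψ s => by
    exact_mod_cast Polynomial.eval₂_natCast ψ s 8
  have n64 : ∀ {S : Type u} [CommRing S] (ψ : K →+* S) (s : S),
      Polynomial.eval₂ ψ s (64 : Polynomial K) = 64 := fun ψ s => by
    exact_mod_cast Polynomial.eval₂_natCast ψ s 64
  have hF0 : F ≠ 0 := by
    intro h0
    have h1 : A0.eval₂ κ s₀ = 0 := by rw [hA0', h0, map_zero, Polynomial.eval₂_zero]
    have h2 : A1.eval₂ κ s₀ = 0 := by
      have h3 := hC0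
      rw [hcu'] at h3
      simp only [Polynomial.eval₂_mul, Polynomial.eval₂_add, Polynomial.eval₂_sub,
        Polynomial.eval₂_pow, h1, n8, n4] at h3
      have h4 : (8 : Ω) * (A1.eval₂ κ s₀) ^ 3 = 0 := by
        linear_combination h3
      have h5 := (mul_eq_zero.mp h4).resolve_left (by norm_num)
      exact pow_eq_zero_iff (by norm_num) |>.mp h5
    apply hE0
    rw [hde']
    simp only [Polynomial.eval₂_mul, Polynomial.eval₂_sub, Polynomial.eval₂_pow, h1, h2, n64, n4]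
    ring
  have hw0 : w ≠ 0 := by
    rintro rfl
    apply hF0
    rw [← hwF]
    norm_num
  -- the point over the rational function field
  obtain ⟨φ, hφ⟩ : ∃ φ : K →ₐ[k] Rt 1 K, φ = IsScalarTower.toAlgHom k K (Rt 1 K) := ⟨_, rfl⟩
  have hφr : φ.toRingHom = algebraMap K (Rt 1 K) := by rw [hφ]; rfl
  have hφa : ∀ z, φ z = algebraMap K (Rt 1 K) z := fun z => by rw [hφ]; rfl
  obtain ⟨p, hp⟩ : ∃ p, p = lin (fun l => φ (x l)) (vec i j (tt K)) f := ⟨_, rfl⟩
  have hvl : ∀ l, l ≠ i → l ≠ j → vec i j (tt K) l = 0 := by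
    intro l h1 h2
    unfold vec
    rw [if_neg h1, if_neg h2, add_zero]
  have hnd : p.natDegree ≤ 4 := by
    rw [hp]
    exact lin_natDegree hvl hij hd
  have e0 : A0.eval₂ φ.toRingHom (tt K) = p.coeff 0 := by rw [hA0, two_coeff_eval, hp]
  have e1 : A1.eval₂ φ.toRingHom (tt K) = p.coeff 1 := by rw [hA1, two_coeff_eval, hp]
  have e2 : A2.eval₂ φ.toRingHom (tt K) = p.coeff 2 := by rw [hA2, two_coeff_eval, hp]
  have eC : cu.eval₂ φ.toRingHom (tt K) = 8 * (8 * p.coeff 0 ^ 2 * p.coeff 3 -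
      4 * p.coeff 0 * p.coeff 1 * p.coeff 2 + p.coeff 1 ^ 3) := by
    rw [hcu]
    exact cub_eval φ (tt K) x i j f hp
  have eD : de.eval₂ φ.toRingHom (tt K) = (4 * p.coeff 0 * p.coeff 2 - p.coeff 1 ^ 2) ^ 2 -
      64 * p.coeff 0 ^ 3 * p.coeff 4 := by
    rw [hde]
    exact den_eval φ (tt K) x i j f hp
  have hp0 : p.coeff 0 = φ F := by
    rw [← e0, hA0', Polynomial.eval₂_C]
    rfl
  have hp00 : p.coeff 0 ≠ 0 := by
    rw [hp0]
    exact (map_ne_zero φ).mpr hF0
  have hde0 : de ≠ 0 := by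
    rintro h0
    apply hE0
    rw [h0, Polynomial.eval₂_zero]
  have hdt : de.eval₂ φ.toRingHom (tt K) ≠ 0 := by
    intro h0
    rw [hφr] at h0
    exact tt_not (K := K) ⟨de, hde0, h0⟩
  obtain ⟨h, hh⟩ : ∃ h, h * de.eval₂ φ.toRingHom (tt K) =
      p.coeff 0 * cu.eval₂ φ.toRingHom (tt K) :=
    ⟨p.coeff 0 * cu.eval₂ φ.toRingHom (tt K) / de.eval₂ φ.toRingHom (tt K),
      div_mul_cancel₀ _ hdt⟩
  obtain ⟨w', hw'⟩ : ∃ w', w' = φ w * (8 * p.coeff 0 ^ 2 + 4 * p.coeff 0 * p.coeff 1 * h +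
    (4 * p.coeff 0 * p.coeff 2 - p.coeff 1 ^ 2) * h ^ 2) / (8 * p.coeff 0 ^ 2) := ⟨_, rfl⟩
  have hid := ident2 (F := p.coeff 0) (a1 := p.coeff 1) (a2 := p.coeff 2) (a3 := p.coeff 3)
    (a4 := p.coeff 4) (h := h) (w := φ w) hp00 (by rw [← map_pow, hwF, hp0]) (by
      rw [← eC, ← eD]
      exact hh)
  rw [← hw'] at hid
  obtain ⟨y, hy⟩ : ∃ y : Fin (N + 1) → Rt 1 K,
    y = Fin.cons w' (fun l => φ (x l) + h * vec i j (tt K) l) := ⟨_, rfl⟩
  have hy0 : y 0 = w' := by rw [hy]; rfl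
  have hys : ∀ l : Fin N, y l.succ = φ (x l) + h * vec i j (tt K) l := fun l => by
    rw [hy]
    exact Fin.cons_succ _ _ _
  have hyf : aeval y (cover f) = 0 := by
    rw [aeval_cover, hy0, hid]
    have h1 : aeval (fun l : Fin N => y l.succ) f = p.eval h := by
      rw [hp, lin_eval]
      congr 2
      funext l
      exact hys l
    rw [h1, Polynomial.eval_eq_sum_range' (Nat.lt_succ_of_le hnd)]
    simp only [Finset.sum_range_succ, Finset.sum_range_zero]
    ring
  obtain ⟨A, hAA⟩ : ∃ A : Fin (N + 1) → Polynomial K, A = Fin.cons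
    (Polynomial.C w * (8 * de ^ 2 + 4 * A1 * cu * de + (4 * A0 * A2 - A1 ^ 2) * cu ^ 2))
    (fun l => Polynomial.C (x l) * (8 * de ^ 2) + 8 * dir K i j l * A0 * cu * de) := ⟨_, rfl⟩
  have hAz : A 0 = Polynomial.C w * (8 * de ^ 2 + 4 * A1 * cu * de +
      (4 * A0 * A2 - A1 ^ 2) * cu ^ 2) := by rw [hAA]; rfl
  have hAs : ∀ l : Fin N, A l.succ = Polynomial.C (x l) * (8 * de ^ 2) +
      8 * dir K i j l * A0 * cu * de := fun l => by
    rw [hAA]
    exact Fin.cons_succ _ _ _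
  have hdirv : ∀ l, (dir K i j l).eval₂ φ.toRingHom (tt K) = vec i j (tt K) l := by
    intro l
    unfold dir vec
    rw [Polynomial.eval₂_add]
    split_ifs <;> simp
  have hdirs : ∀ l, (dir K i j l).eval₂ κ s₀ = (if l = i then 1 else 0) + s₀ *
      (if l = j then 1 else 0) := by
    intro l
    unfold dir
    rw [Polynomial.eval₂_add]
    split_ifs <;> simp
  obtain ⟨τ, hτ⟩ : ∃ τ, τ * de.eval₂ κ s₀ = κ F * (Polynomial.derivative cu).eval₂ κ s₀ :=
    ⟨κ F * (Polynomial.derivative cu).eval₂ κ s₀ / de.eval₂ κ s₀, div_mul_cancel₀ _ hE0⟩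
  have hτ0 : τ ≠ 0 := by
    rintro rfl
    rw [zero_mul] at hτ
    exact mul_ne_zero ((map_ne_zero κ).mpr hF0) hC1 hτ.symm
  -- the derivatives of `w`
  have hDw1 : 2 * w * D1 w = aeval x (pderiv i f) := by
    have h1 := congrArg D1 hwF
    rw [Derivation.leibniz_pow, hF, der_aeval D1 (x := x) hij (fun l h1 h2 => by
      rw [hx]
      change D1 (ξ l.succ) = 0
      rw [hD1, if_neg h1]), hx] at h1
    change (2 : ℕ) • w ^ (2 - 1) • D1 w = aeval (fun l => ξ l.succ) (pderiv i f) * D1 (ξ i.succ) +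
      aeval (fun l => ξ l.succ) (pderiv j f) * D1 (ξ j.succ) at h1
    rw [hD1, hD1, if_pos rfl, if_neg (Ne.symm hij), mul_one, mul_zero, add_zero, ← hx] at h1
    rw [← h1]
    simp only [Nat.add_one_sub_one, pow_one, smul_eq_mul, nsmul_eq_mul, Nat.cast_ofNat]
    ring
  have hDw2 : 2 * w * D2 w = aeval x (pderiv j f) := by
    have h1 := congrArg D2 hwF
    rw [Derivation.leibniz_pow, hF, der_aeval D2 (x := x) hij (fun l h1 h2 => by
      rw [hx]
      change D2 (ξ l.succ) = 0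
      rw [hD2, if_neg h2]), hx] at h1
    change (2 : ℕ) • w ^ (2 - 1) • D2 w = aeval (fun l => ξ l.succ) (pderiv i f) * D2 (ξ i.succ) +
      aeval (fun l => ξ l.succ) (pderiv j f) * D2 (ξ j.succ) at h1
    rw [hD2, hD2, if_pos rfl, if_neg hij, mul_one, mul_zero, zero_add, ← hx] at h1
    rw [← h1]
    simp only [Nat.add_one_sub_one, pow_one, smul_eq_mul, nsmul_eq_mul, Nat.cast_ofNat]
    ring
  have hA0s : A0.eval₂ κ s₀ = κ F := by rw [hA0', Polynomial.eval₂_C]
  have hA1s : A1.eval₂ κ s₀ = 2 * κ w * (κ (D1 w) + s₀ * κ (D2 w)) := by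
    rw [hA1', ← hDw1, ← hDw2]
    simp only [Polynomial.eval₂_add, Polynomial.eval₂_mul, Polynomial.eval₂_C, Polynomial.eval₂_X,
      map_mul, map_ofNat, n2]
    ring
  have hκF : κ F = κ w ^ 2 := by rw [← hwF, map_pow]
  refine kill_abs (A := A) (D := 8 * de ^ 2) (y := y) (D1 := D1) (D2 := D2) (τ := τ) hξ.gen
    (fun m => ?_) (fun P hP => ?_) κ ?_ hτ0 (fun m => ?_) (fun m => ?_) ha
  · -- the coordinates
    refine Fin.cases ?_ (fun l => ?_) m
    · rw [hy0, hAz, ← hφr]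
      simp only [Polynomial.eval₂_mul, Polynomial.eval₂_add, Polynomial.eval₂_sub,
        Polynomial.eval₂_pow, Polynomial.eval₂_C, n8, n4, e0, e1, e2]
      change _ = φ w * _
      rw [hw', div_mul_eq_mul_div, div_eq_iff (by
        refine mul_ne_zero (by norm_num) (pow_ne_zero _ hp00))]
      linear_combination (φ w * (32 * p.coeff 0 * p.coeff 1 * de.eval₂ φ.toRingHom (tt K) +
        8 * (4 * p.coeff 0 * p.coeff 2 - p.coeff 1 ^ 2) * (h * de.eval₂ φ.toRingHom (tt K) +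
          p.coeff 0 * cu.eval₂ φ.toRingHom (tt K)))) * hh
    · rw [hys, hAs, ← hφr]
      simp only [Polynomial.eval₂_mul, Polynomial.eval₂_add, 
        Polynomial.eval₂_pow, Polynomial.eval₂_C, n8, e0, hdirv]
      change _ = φ (x l) * _ + _
      linear_combination (8 * vec i j (tt K) l * de.eval₂ φ.toRingHom (tt K)) * hh
  · obtain ⟨g, rfl⟩ := (hξ.zero_iff P).mp hP
    rw [map_mul, hyf, zero_mul]
  · simp only [Polynomial.eval₂_mul, Polynomial.eval₂_pow, n8]
    exact mul_ne_zero (by norm_num) (pow_ne_zero _ hE0)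
  · refine Fin.cases ?_ (fun l => ?_) m
    · rw [hAz, ← hw]
      simp only [Polynomial.eval₂_mul, Polynomial.eval₂_add, Polynomial.eval₂_sub,
        Polynomial.eval₂_pow, Polynomial.eval₂_C, n8, n4, hC0]
      ring
    · have hxl : ξ l.succ = x l := by rw [hx]
      rw [hAs, hxl]
      simp only [Polynomial.eval₂_mul, Polynomial.eval₂_add,
        Polynomial.eval₂_pow, Polynomial.eval₂_C, n8, hC0]
      ring
  · have d8 : Polynomial.derivative (8 : Polynomial K) = 0 := by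
      exact_mod_cast Polynomial.derivative_natCast (R := K) (n := 8)
    have d4 : Polynomial.derivative (4 : Polynomial K) = 0 := by
      exact_mod_cast Polynomial.derivative_natCast (R := K) (n := 4)
    refine Fin.cases ?_ (fun l => ?_) m
    · rw [hAz, ← hw]
      simp only [Polynomial.derivative_mul, Polynomial.derivative_add, Polynomial.derivative_pow,
        Polynomial.derivative_C, d8, d4, Polynomial.eval₂_mul, Polynomial.eval₂_add,
        Polynomial.eval₂_sub,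
        Polynomial.eval₂_pow, Polynomial.eval₂_C, n8, n4, hC0, Polynomial.eval₂_zero, zero_mul,
        mul_zero, zero_add, add_zero]
      norm_num
      rw [hA1s]
      rw [hκF] at hτ
      linear_combination (-8 * (κ (D1 w) + s₀ * κ (D2 w)) * de.eval₂ κ s₀) * hτ
    · have hxl : ξ l.succ = x l := by rw [hx]
      rw [hAs, hD1, hD2, hxl]
      simp only [Polynomial.derivative_mul, Polynomial.derivative_add, Polynomial.derivative_pow,
        Polynomial.derivative_C, d8, Polynomial.eval₂_mul, Polynomial.eval₂_add,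
        Polynomial.eval₂_pow, Polynomial.eval₂_C, n8, hC0, Polynomial.eval₂_zero, zero_mul,
        mul_zero, zero_add, add_zero, hdirs, hA0s]
      norm_num
      linear_combination (-8 * ((if l = i then 1 else 0) + (if l = j then s₀ else 0)) *
        de.eval₂ κ s₀) * hτ

end Pool.Agent.Helper93K9.DC
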