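import Pool.Agent.Helper93K9.DC.Core

/-! General double covers. -/

set_option autoImplicit false

namespace Pool.Agent.Helper93K9.DC

open MvPolynomial Pool.Agent.R867.Mov Pool.Agent.R867.J Pool.Agent.R867.H Pool.Agent.R867.D

universe u v w

section Base

variable {S : Type v} [CommRing S] {k : Type u} [CommRing k] [Algebra S k] {N : ℕ}

theorem two_base {R : Type w} [CommRing R] [Algebra k R] [Algebra S R] [IsScalarTower S k R]
    (x : Fin N → R) (i j : Fin N) (F : MvPolynomial (Fin N) S) :
    two x i j (MvPolynomial.map (algebraMap S k) F) = two x i j F := by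
  unfold two
  rw [aeval_map_algebraMap]

theorem nd_base {R : Type w} [CommRing R] [Algebra k R] [Algebra S R] [IsScalarTower S k R]
    (x : Fin N → R) (i j : Fin N) (F : MvPolynomial (Fin N) S) :
    nd x i j (MvPolynomial.map (algebraMap S k) F) = nd x i j F := by
  unfold nd cub den
  rw [two_base]

end Base

section Base2

variable {S : Type v} [CommRing S] {k : Type u} [CommRing k] {N : ℕ}

theorem nd_ring (φ : S →+* k) (i j : Fin N) (F : MvPolynomial (Fin N) S) :
    φ (nd (0 : Fin N → S) i j F) = nd (0 : Fin N → k) i j (MvPolynomial.map φ F) := by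
  let _ : Algebra S k := φ.toAlgebra
  have h := nd_map (Algebra.ofId S k) (0 : Fin N → S) i j F
  have h2 : (fun l => (Algebra.ofId S k) ((0 : Fin N → S) l)) = (0 : Fin N → k) := by
    funext l
    exact map_zero _
  rw [h2] at h
  have h3 := nd_base (k := k) (R := k) (0 : Fin N → k) i j F
  have h4 : (algebraMap S k) = φ := rfl
  rw [h4] at h3
  rw [h3]
  exact h

end Base2

section Example

variable {N : ℕ} {i j : Fin N}

/-- the example -/
noncomputable def exF (N : ℕ) (i j : Fin N) : MvPolynomial (Fin N) ℚ :=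
  1 + X j ^ 3 - X i ^ 3 + X i ^ 2

theorem ex_nd (hij : i ≠ j) : nd (0 : Fin N → ℚ) i j (exF N i j) ≠ 0 := by
  have h1 : two (0 : Fin N → ℚ) i j (exF N i j) = 1 + Polynomial.C (Polynomial.X ^ 3 - 1) *
      Polynomial.X ^ 3 + Polynomial.X ^ 2 := by
    unfold exF
    rw [map_add, map_sub, map_add, map_one, map_pow, map_pow, map_pow, two_X, two_X]
    unfold dir
    rw [if_neg (Ne.symm hij), if_pos rfl, if_pos rfl, if_neg hij]
    simp only [Pi.zero_apply, Polynomial.C_0, zero_add, add_zero, Polynomial.C_1, mul_one,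
      Polynomial.C_sub, Polynomial.C_pow]
    ring
  have cm : ∀ m, (two (0 : Fin N → ℚ) i j (exF N i j)).coeff m = (if m = 0 then 1 else 0) +
      (Polynomial.X ^ 3 - 1) * (if m = 3 then 1 else 0) + if m = 2 then 1 else 0 := by
    intro m
    rw [h1, Polynomial.coeff_add, Polynomial.coeff_add, Polynomial.coeff_C_mul,
      Polynomial.coeff_one, Polynomial.coeff_X_pow, Polynomial.coeff_X_pow]
  have c0 : (two (0 : Fin N → ℚ) i j (exF N i j)).coeff 0 = 1 := by
    rw [cm]
    norm_num
  have c1 : (two (0 : Fin N → ℚ) i j (exF N i j)).coeff 1 = 0 := by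
    rw [cm]
    norm_num
  have c2 : (two (0 : Fin N → ℚ) i j (exF N i j)).coeff 2 = 1 := by
    rw [cm]
    norm_num
  have c3 : (two (0 : Fin N → ℚ) i j (exF N i j)).coeff 3 = Polynomial.X ^ 3 - 1 := by
    rw [cm]
    norm_num
  have c4 : (two (0 : Fin N → ℚ) i j (exF N i j)).coeff 4 = 0 := by
    rw [cm]
    norm_num
  have hc : cub (0 : Fin N → ℚ) i j (exF N i j) = 64 * (Polynomial.X ^ 3 - 1) := by
    unfold cub
    rw [c0, c1, c2, c3]
    ring
  have hd : den (0 : Fin N → ℚ) i j (exF N i j) = 16 := by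
    unfold den
    rw [c0, c1, c2, c4]
    norm_num
  rw [nd_iff, hc, hd]
  have h64 : (64 : Polynomial ℚ) = Polynomial.C 64 := (map_ofNat Polynomial.C 64).symm
  refine ⟨?_, ?_, ?_⟩
  · rw [h64, Polynomial.coeff_C_mul, Polynomial.coeff_sub, Polynomial.coeff_X_pow, if_pos rfl,
      Polynomial.coeff_one, if_neg (by norm_num)]
    norm_num
  · rw [h64, Polynomial.derivative_C_mul, Polynomial.derivative_sub, Polynomial.derivative_X_pow,
      Polynomial.derivative_one, sub_zero]
    refine ⟨- Polynomial.C (1 / 64), Polynomial.C (1 / 192) * Polynomial.X, ?_⟩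
    have e1 : Polynomial.C (1 / 64 : ℚ) * Polynomial.C 64 = 1 := by
      rw [← Polynomial.C_mul]
      norm_num
    have e2 : Polynomial.C (1 / 192 : ℚ) * (Polynomial.C 64 * Polynomial.C ((3 : ℕ) : ℚ)) = 1 := by
      rw [← Polynomial.C_mul, ← Polynomial.C_mul]
      norm_num
    linear_combination (1 - Polynomial.X ^ 3) * e1 + Polynomial.X ^ 3 * e2
  · refine ⟨0, Polynomial.C (1 / 16), ?_⟩
    rw [zero_mul, zero_add, show (16 : Polynomial ℚ) = Polynomial.C 16 from
      (map_ofNat Polynomial.C 16).symm, ← Polynomial.C_mul]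
    norm_num

end Example

section General

variable {N : ℕ} {ι : Type} [DecidableEq ι] {β : Fin N → ι} {d : ι → ℕ}

/-- the condition on the coefficients for a block -/
theorem exists_cond (h : ∃ j, 1 ≤ d j ∧ d j ≤ 2 * (Finset.univ.filter fun l => β l = j).card) :
    ∃ Φ : MvPolynomial (expo β d) ℚ, Φ ≠ 0 ∧ ∀ {k : Type u} [Field k] [CharZero k]
      (f : MvPolynomial (Fin N) k), f.support ⊆ expo β d → (∀ l, degreeOf l f ≤ 4) →
        (∀ j, d j ≤ 4) → sp (expo β d) f Φ ≠ 0 → Irreducible f →
        ∀ {K : Type u} [Field K] [Algebra k K] (ξ : Fin (N + 1) → K), GP (cover f) ξ →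
          Rel k ξ Set.univ := by
  obtain ⟨b, hb1, hb2⟩ := h
  by_cases h2 : d b ≤ 2
  · -- a variable of degree at most two
    obtain ⟨i₀, hi₀⟩ : ∃ i₀ : Fin N, β i₀ = b := by
      have h3 : 0 < (Finset.univ.filter fun l => β l = b).card := by omega
      obtain ⟨i₀, hi₀⟩ := Finset.card_pos.mp h3
      exact ⟨i₀, (Finset.mem_filter.mp hi₀).2⟩
    have hmem : Finsupp.single i₀ 1 ∈ expo β d := single_mem (by rw [hi₀]; exact hb1)
    refine ⟨X ⟨Finsupp.single i₀ 1, hmem⟩, X_ne_zero _, ?_⟩
    intro k _ _ f hf h4 _ hΦ hirr K _ _ ξ hξ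
    have h5 : coeff (Finsupp.single i₀ 1) f ≠ 0 := by
      unfold sp at hΦ
      change aeval _ (X _) ≠ 0 at hΦ
      rwa [aeval_X] at hΦ
    have h6 : 1 ≤ degreeOf i₀ f := by
      have h7 := monomial_le_degreeOf i₀ (mem_support_iff.mpr h5)
      rwa [Finsupp.single_eq_same] at h7
    have h7 : degreeOf i₀ f ≤ 2 := by
      refine (deg_le hf i₀).trans ?_
      rw [hi₀]
      exact h2
    exact rel_conic' hξ hirr h6 h7 h4
  · -- a block of two variables
    push Not at h2
    obtain ⟨i, hi, j, hj, hij⟩ : ∃ i, β i = b ∧ ∃ j, β j = b ∧ i ≠ j := by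
      have h3 : 1 < (Finset.univ.filter fun l => β l = b).card := by omega
      obtain ⟨i, hi, j, hj, hij⟩ := Finset.one_lt_card.mp h3
      exact ⟨i, (Finset.mem_filter.mp hi).2, j, (Finset.mem_filter.mp hj).2, hij⟩
    refine ⟨nd (0 : Fin N → MvPolynomial (expo β d) ℚ) i j (uF (expo β d)), ?_, ?_⟩
    · intro h0
      have hsupp : (exF N i j).support ⊆ expo β d := by
        have h5 : exF N i j = monomial 0 1 + monomial (Finsupp.single j 3) 1 +
            monomial (Finsupp.single i 3) (-1) + monomial (Finsupp.single i 2) 1 := by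
          have h6 : (monomial (Finsupp.single i 3) (-1) : MvPolynomial (Fin N) ℚ) =
              - monomial (Finsupp.single i 3) 1 := by
            rw [map_neg]
          unfold exF
          rw [X_pow_eq_monomial, X_pow_eq_monomial, X_pow_eq_monomial, h6]
          have h7 : (1 : MvPolynomial (Fin N) ℚ) = monomial 0 1 := rfl
          rw [← h7]
          ring
        rw [h5]
        refine sub_add (sub_add (sub_add (sub_mon ?_ _) (sub_mon ?_ _)) (sub_mon ?_ _))
          (sub_mon ?_ _)
        · rw [mem_expo]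
          intro j'
          simp
        · exact single_mem (by rw [hj]; omega)
        · exact single_mem (by rw [hi]; omega)
        · exact single_mem (by rw [hi]; omega)
      have h1 := nd_ring (sp (expo β d) (exF N i j)) i j (uF (expo β d))
      rw [h0, map_zero, map_uF hsupp] at h1
      exact ex_nd hij h1.symm
    · intro k _ _ f hf h4 hd4 hΦ hirr K _ _ ξ hξ
      rw [nd_ring, map_uF hf] at hΦ
      have hnd : nd (R := MvPolynomial (Fin N) k) X i j f ≠ 0 := by
        intro h0
        have h1 := nd_map (aeval (0 : Fin N → k) : MvPolynomial (Fin N) k →ₐ[k] k)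
          (X : Fin N → MvPolynomial (Fin N) k) i j f
        rw [h0, map_zero] at h1
        simp only [aeval_X] at h1
        exact hΦ h1.symm
      refine rel_cover hξ hirr hij (fun m hm => ?_) h4 hnd
      refine (two_le hf hij (hi.trans hj.symm) m hm).trans ?_
      exact hd4 _

theorem general_cover [Fintype ι] (hN : 2 ≤ N) (hβ : Function.Surjective β)
    (hd : ∀ j, 1 ≤ d j ∧ d j ≤ 4)
    (h : ∃ j, d j ≤ 2 * (Finset.univ.filter fun l => β l = j).card) :
    ∃ Φ : MvPolynomial (expo β d) ℚ, Φ ≠ 0 ∧ ∀ {k : Type u} [Field k] [CharZero k]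
      (f : MvPolynomial (Fin N) k), f.support ⊆ expo β d → sp (expo β d) f Φ ≠ 0 →
        Irreducible (MvPolynomial.map (algebraMap k (AlgebraicClosure k)) f) ∧
        ∀ {K : Type u} [Field K] [Algebra k K] (ξ : Fin (N + 1) → K), GP (cover f) ξ →
          Rel k ξ Set.univ := by
  obtain ⟨Φ₁, h1, h2⟩ := gen_irr.{u} hN hβ (fun j => (hd j).1)
  obtain ⟨Φ₂, h3, h4⟩ := exists_cond.{u} (β := β) (d := d) (by
    obtain ⟨j, hj⟩ := h
    exact ⟨j, (hd j).1, hj⟩)
  refine ⟨Φ₁ * Φ₂, mul_ne_zero h1 h3, ?_⟩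
  intro k _ _ f hf hΦ
  rw [map_mul] at hΦ
  have hirr : Irreducible (MvPolynomial.map (algebraMap k (AlgebraicClosure k)) f) := by
    refine h2 _ ((support_map_subset _ _).trans hf) ?_
    have h5 : sp (expo β d) (MvPolynomial.map (algebraMap k (AlgebraicClosure k)) f) Φ₁ =
        algebraMap k (AlgebraicClosure k) (sp (expo β d) f Φ₁) := by
      unfold sp
      change aeval _ Φ₁ = algebraMap k (AlgebraicClosure k) (aeval _ Φ₁)
      have h6 := (MvPolynomial.aeval_algebraMap_apply (R := ℚ) (A := k) (AlgebraicClosure k)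
        (fun m : expo β d => coeff (m : Fin N →₀ ℕ) f) Φ₁)
      rw [← h6]
      congr 2
    rw [h5]
    exact (map_ne_zero _).mpr (left_ne_zero_of_mul hΦ)
  refine ⟨hirr, ?_⟩
  intro K _ _ ξ hξ
  exact h4 f hf (fun l => (deg_le hf l).trans (hd _).2) (fun j => (hd j).2)
    (right_ne_zero_of_mul hΦ) (irr_of_map hirr) ξ hξ

end General

end Pool.Agent.Helper93K9.DC
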