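import Pool.Agent.R867.H.Cub2

/-! Families of self-maps which contain the identity: the immovable functions are killed by the
tangent vectors. -/

set_option autoImplicit false

namespace Pool.Agent.Helper93K9.DC

open MvPolynomial Pool.Agent.R867.Mov Pool.Agent.R867.J Pool.Agent.R867.H Pool.Agent.R867.D

universe u v w

/-- evaluation of a polynomial at the dual number `s₀ + ε` -/
theorem eval_dual {K Ω : Type u} [Field K] [Field Ω] (κ : K →+* Ω) (s₀ : Ω) (P : Polynomial K) :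
    P.eval₂ ((TrivSqZeroExt.inlHom Ω Ω).comp κ)
      (TrivSqZeroExt.inl s₀ + TrivSqZeroExt.inr 1 : DualNumber Ω) =
    TrivSqZeroExt.inl (P.eval₂ κ s₀) +
      TrivSqZeroExt.inr ((Polynomial.derivative P).eval₂ κ s₀) := by
  induction P using Polynomial.induction_on' with
  | add p q hp hq =>
    rw [Polynomial.eval₂_add, hp, hq, Polynomial.eval₂_add, Polynomial.derivative_add,
      Polynomial.eval₂_add, TrivSqZeroExt.inl_add, TrivSqZeroExt.inr_add]
    ring
  | monomial n a =>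
    have hs : (TrivSqZeroExt.inl s₀ + TrivSqZeroExt.inr 1 : DualNumber Ω) ^ n =
        TrivSqZeroExt.inl (s₀ ^ n) + TrivSqZeroExt.inr (n * s₀ ^ (n - 1)) := by
      induction n with
      | zero => simp
      | succ n ih =>
        rw [pow_succ, ih]
        apply TrivSqZeroExt.ext
        · simp [pow_succ]
        · simp only [DualNumber.snd_mul, TrivSqZeroExt.fst_add, TrivSqZeroExt.fst_inl,
            TrivSqZeroExt.fst_inr, TrivSqZeroExt.snd_add, TrivSqZeroExt.snd_inl,
            TrivSqZeroExt.snd_inr, add_zero, zero_add, mul_one, Nat.add_sub_cancel]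
          rcases n with _ | n
          · simp
          · rw [Nat.add_sub_cancel]
            push_cast
            ring
    rw [Polynomial.eval₂_monomial, hs, Polynomial.derivative_monomial, Polynomial.eval₂_monomial,
      Polynomial.eval₂_monomial]
    apply TrivSqZeroExt.ext
    · simp
    · simp [DualNumber.snd_mul]
      ring

variable {k K : Type u} [Field k] [Field K] [Algebra k K] {N : ℕ} {ξ : Fin N → K}

/-- A point `y` with coordinates `A m / D` in the rational function field, which specializes to the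
generic point at `s₀`, with the tangent vector `τ (D₁ + s₀ D₂)`. -/
theorem kill_abs (hgen : IntermediateField.adjoin k (Set.range ξ) = ⊤) {A : Fin N → Polynomial K}
    {D : Polynomial K} {y : Fin N → Rt 1 K}
    (hyA : ∀ m, y m * D.eval₂ (algebraMap K (Rt 1 K)) (tt K) =
      (A m).eval₂ (algebraMap K (Rt 1 K)) (tt K))
    (hy0 : ∀ P : MvPolynomial (Fin N) k, aeval ξ P = 0 → aeval y P = 0)
    {D1 D2 : Derivation k K K} {Ω : Type u} [Field Ω] (κ : K →+* Ω) {s₀ τ : Ω}
    (hD0 : D.eval₂ κ s₀ ≠ 0) (hτ0 : τ ≠ 0)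
    (hA0 : ∀ m, (A m).eval₂ κ s₀ = κ (ξ m) * D.eval₂ κ s₀)
    (hA1 : ∀ m, (Polynomial.derivative (A m)).eval₂ κ s₀ =
      κ (ξ m) * (Polynomial.derivative D).eval₂ κ s₀ +
        τ * (κ (D1 (ξ m)) + s₀ * κ (D2 (ξ m))) * D.eval₂ κ s₀)
    {a : K} (ha : Imm k a) : κ (D1 a) + s₀ * κ (D2 a) = 0 := by
  have htt : ∀ G : Polynomial K, G.eval₂ (algebraMap K (Rt 1 K)) (tt K) = 0 → G = 0 := by
    intro G hG
    by_contra hG0
    exact tt_not (K := K) ⟨G, hG0, hG⟩
  have hyP : ∀ P : MvPolynomial (Fin N) k, P.eval₂ ((algebraMap K (Rt 1 K)).comp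
      (algebraMap k K)) y = aeval y P := fun P => rfl
  obtain ⟨κ', hκ'⟩ : ∃ κ' : K →+* DualNumber Ω, κ' = (TrivSqZeroExt.inlHom Ω Ω).comp κ := ⟨_, rfl⟩
  have hκf : ∀ z, (κ' z).fst = κ z := fun z => by rw [hκ']; rfl
  have hκs : ∀ z, (κ' z).snd = 0 := fun z => by rw [hκ']; rfl
  obtain ⟨s', hs'⟩ : ∃ s' : DualNumber Ω, s' = TrivSqZeroExt.inl s₀ + TrivSqZeroExt.inr 1 :=
    ⟨_, rfl⟩
  have hev : ∀ P : Polynomial K, (P.eval₂ κ' s').fst = P.eval₂ κ s₀ ∧
      (P.eval₂ κ' s').snd = (Polynomial.derivative P).eval₂ κ s₀ := by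
    intro P
    rw [hκ', hs', eval_dual]
    simp
  obtain ⟨p, hpf, hps⟩ : ∃ p : Fin N → DualNumber Ω, (∀ m, (p m).fst = κ (ξ m)) ∧
      ∀ m, (p m).snd = τ * (κ (D1 (ξ m)) + s₀ * κ (D2 (ξ m))) :=
    ⟨fun m => TrivSqZeroExt.inl (κ (ξ m)) + TrivSqZeroExt.inr
      (τ * (κ (D1 (ξ m)) + s₀ * κ (D2 (ξ m)))), fun m => by simp,
      fun m => by simp⟩
  have hpA : ∀ m, p m * D.eval₂ κ' s' = (A m).eval₂ κ' s' := by
    intro m
    apply TrivSqZeroExt.ext
    · rw [TrivSqZeroExt.fst_mul, hpf, (hev D).1, (hev (A m)).1, hA0]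
    · rw [DualNumber.snd_mul, hpf, hps, (hev D).1, (hev D).2, (hev (A m)).2, hA1]
  have hDf : (D.eval₂ κ' s').fst ≠ 0 := by
    rw [(hev D).1]
    exact hD0
  have hpP : ∀ P : MvPolynomial (Fin N) k, (P.eval₂ (κ'.comp (algebraMap k K)) p).fst =
      κ (aeval ξ P) ∧ (P.eval₂ (κ'.comp (algebraMap k K)) p).snd =
        τ * (κ (D1 (aeval ξ P)) + s₀ * κ (D2 (aeval ξ P))) := by
    intro P
    induction P using MvPolynomial.induction_on with
    | C c =>
      rw [MvPolynomial.eval₂_C, RingHom.comp_apply, hκf, hκs, aeval_C, D1.map_algebraMap,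
        D2.map_algebraMap]
      simp
    | add P Q hP hQ =>
      rw [MvPolynomial.eval₂_add, TrivSqZeroExt.fst_add, TrivSqZeroExt.snd_add, hP.1, hP.2, hQ.1,
        hQ.2, map_add, map_add, map_add, map_add, map_add, map_add]
      refine ⟨rfl, by ring⟩
    | mul_X P m hP =>
      rw [MvPolynomial.eval₂_mul, MvPolynomial.eval₂_X, TrivSqZeroExt.fst_mul, DualNumber.snd_mul,
        hP.1, hP.2, hpf, hps, map_mul, aeval_X, map_mul, Derivation.leibniz, Derivation.leibniz]
      refine ⟨rfl, ?_⟩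
      simp only [smul_eq_mul, map_add, map_mul]
      ring
  obtain ⟨σ, hσ⟩ := embedG (aeval ξ : MvPolynomial (Fin N) k →ₐ[k] K)
    (aeval y : MvPolynomial (Fin N) k →ₐ[k] Rt 1 K) (fun P => by
      constructor
      · exact hy0 P
      · intro h0
        obtain ⟨G, e, hG⟩ := clearP (k := k) A D P
        have h1 := hG (algebraMap K (Rt 1 K)) (tt K) y hyA
        rw [hyP, h0, zero_mul] at h1
        have h2 := htt G h1.symm
        have h3 := hG κ' s' p hpA
        rw [h2, Polynomial.eval₂_zero] at h3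
        have h4 := congrArg TrivSqZeroExt.fst h3
        rw [TrivSqZeroExt.fst_mul, TrivSqZeroExt.fst_pow, (hpP P).1, 
          TrivSqZeroExt.fst_zero] at h4
        have h5 := (mul_eq_zero.mp h4).resolve_right (pow_ne_zero _ hDf)
        exact (map_eq_zero κ).mp h5) (fun z => by
      obtain ⟨P, Q, h1, h2⟩ := exists_frac hgen z
      exact ⟨P, Q, h1, h2⟩)
  obtain ⟨c, hc⟩ := ha 1 σ
  obtain ⟨P, Q, hQ0, hPQ⟩ := exists_frac hgen a
  have hyPQ : algebraMap K (Rt 1 K) c * aeval y Q = aeval y P := by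
    rw [hc, ← hσ, ← hσ, ← hPQ, map_mul]
  obtain ⟨GP', eP, hGP⟩ := clearP (k := k) A D P
  obtain ⟨GQ, eQ, hGQ⟩ := clearP (k := k) A D Q
  have hid : Polynomial.C c * GQ * D ^ eP = GP' * D ^ eQ := by
    rw [← sub_eq_zero]
    apply htt
    rw [Polynomial.eval₂_sub, Polynomial.eval₂_mul, Polynomial.eval₂_mul, Polynomial.eval₂_mul,
      Polynomial.eval₂_pow, Polynomial.eval₂_pow, Polynomial.eval₂_C,
      ← hGP (algebraMap K (Rt 1 K)) (tt K) y hyA, ← hGQ (algebraMap K (Rt 1 K)) (tt K) y hyA,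
      hyP, hyP, ← hyPQ]
    ring
  have hid' : κ' c * Q.eval₂ (κ'.comp (algebraMap k K)) p =
      P.eval₂ (κ'.comp (algebraMap k K)) p := by
    have h1 := congrArg (Polynomial.eval₂ κ' s') hid
    rw [Polynomial.eval₂_mul, Polynomial.eval₂_mul, Polynomial.eval₂_mul,
      Polynomial.eval₂_pow, Polynomial.eval₂_pow, Polynomial.eval₂_C, ← hGP κ' s' p hpA,
      ← hGQ κ' s' p hpA] at h1
    refine dual_cancel (D := D.eval₂ κ' s' ^ (eP + eQ)) ?_ ?_
    · rw [TrivSqZeroExt.fst_pow]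
      exact pow_ne_zero _ hDf
    · rw [pow_add]
      linear_combination h1
  have hf1 := congrArg TrivSqZeroExt.fst hid'
  have hs1 := congrArg TrivSqZeroExt.snd hid'
  rw [TrivSqZeroExt.fst_mul, (hpP P).1, (hpP Q).1, hκf, ← map_mul] at hf1
  have hca : c = a := by
    have h1 := κ.injective hf1
    rw [← hPQ] at h1
    exact mul_right_cancel₀ hQ0 h1
  rw [DualNumber.snd_mul, (hpP P).2, (hpP Q).2, (hpP Q).1, hκf, hκs, zero_mul, add_zero, hca,
    ← hPQ, Derivation.leibniz, Derivation.leibniz] at hs1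
  simp only [smul_eq_mul, map_add, map_mul] at hs1
  have h9 : τ * κ (aeval ξ Q) * (κ (D1 a) + s₀ * κ (D2 a)) = 0 := by
    linear_combination -hs1
  exact (mul_eq_zero.mp h9).resolve_left (mul_ne_zero hτ0 ((map_ne_zero κ).mpr hQ0))

end Pool.Agent.Helper93K9.DC
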