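import Pool.Agent.Helper93K9.DC.Fam
import Mathlib.RingTheory.Polynomial.Resultant.Basic

/-! The nondegeneracy condition. -/

set_option autoImplicit false

namespace Pool.Agent.Helper93K9.DC

open MvPolynomial Pool.Agent.R867.Mov Pool.Agent.R867.J Pool.Agent.R867.H Pool.Agent.R867.D

universe u v w

section Deg

variable {k : Type u} [CommRing k] {R : Type v} [CommRing R] [Algebra k R] {N : ℕ}

theorem dir_natDegree (i j l : Fin N) : (dir R i j l).natDegree ≤ 1 := by
  unfold dir
  refine (Polynomial.natDegree_add_le _ _).trans (max_le ?_ ?_)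
  · split_ifs <;> simp
  · split_ifs
    · exact Polynomial.natDegree_X_le
    · simp

theorem two_coeff_natDegree (x : Fin N → R) (i j : Fin N) (f : MvPolynomial (Fin N) k) (m : ℕ) :
    ((two x i j f).coeff m).natDegree ≤ m := by
  induction f using MvPolynomial.induction_on generalizing m with
  | C c =>
    rw [two_C, Polynomial.coeff_C]
    split_ifs <;> simp
  | add p q hp hq =>
    rw [map_add, Polynomial.coeff_add]
    exact (Polynomial.natDegree_add_le _ _).trans (max_le (hp m) (hq m))
  | mul_X p l hp =>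
    rw [map_mul, two_X, mul_add, Polynomial.coeff_add, Polynomial.coeff_mul_C, ← mul_assoc,
      Polynomial.coeff_mul_C]
    refine (Polynomial.natDegree_add_le _ _).trans (max_le ?_ ?_)
    · exact (Polynomial.natDegree_mul_C_le _ _).trans (hp m)
    · rcases m with _ | m
      · rw [Polynomial.coeff_mul_X_zero, zero_mul]
        simp
      · rw [Polynomial.coeff_mul_X]
        refine Polynomial.natDegree_mul_le.trans ?_
        exact Nat.add_le_add (hp m) (dir_natDegree i j l)

theorem cub_natDegree (x : Fin N → R) (i j : Fin N) (f : MvPolynomial (Fin N) k) :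
    (cub x i j f).natDegree ≤ 3 := by
  have h := two_coeff_natDegree x i j f
  unfold cub
  have n8 : ((8 : Polynomial R)).natDegree = 0 := by
    exact_mod_cast Polynomial.natDegree_natCast (R := R) 8
  have n4 : ((4 : Polynomial R)).natDegree = 0 := by
    exact_mod_cast Polynomial.natDegree_natCast (R := R) 4
  have h0 := h 0
  have h1 := h 1
  have h2 := h 2
  have h3 := h 3
  have e1 : (8 * (two x i j f).coeff 0 ^ 2 * (two x i j f).coeff 3).natDegree ≤ 3 := by
    refine Polynomial.natDegree_mul_le.trans ?_
    have := Polynomial.natDegree_mul_le (p := (8 : Polynomial R)) (q := (two x i j f).coeff 0 ^ 2)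
    have := Polynomial.natDegree_pow_le (p := (two x i j f).coeff 0) (n := 2)
    omega
  have e2 : (4 * (two x i j f).coeff 0 * (two x i j f).coeff 1 *
      (two x i j f).coeff 2).natDegree ≤ 3 := by
    refine Polynomial.natDegree_mul_le.trans ?_
    have := Polynomial.natDegree_mul_le (p := 4 * (two x i j f).coeff 0)
      (q := (two x i j f).coeff 1)
    have := Polynomial.natDegree_mul_le (p := (4 : Polynomial R)) (q := (two x i j f).coeff 0)
    omega
  have e3 : ((two x i j f).coeff 1 ^ 3).natDegree ≤ 3 := by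
    have := Polynomial.natDegree_pow_le (p := (two x i j f).coeff 1) (n := 3)
    omega
  have e4 := (Polynomial.natDegree_add_le (8 * (two x i j f).coeff 0 ^ 2 *
    (two x i j f).coeff 3 - 4 * (two x i j f).coeff 0 * (two x i j f).coeff 1 *
      (two x i j f).coeff 2) ((two x i j f).coeff 1 ^ 3))
  have e5 := (Polynomial.natDegree_sub_le (8 * (two x i j f).coeff 0 ^ 2 *
    (two x i j f).coeff 3) (4 * (two x i j f).coeff 0 * (two x i j f).coeff 1 *
      (two x i j f).coeff 2))
  refine Polynomial.natDegree_mul_le.trans ?_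
  rw [n8, zero_add]
  refine e4.trans (max_le (e5.trans (max_le e1 e2)) e3)

theorem den_natDegree (x : Fin N → R) (i j : Fin N) (f : MvPolynomial (Fin N) k) :
    (den x i j f).natDegree ≤ 4 := by
  have h := two_coeff_natDegree x i j f
  unfold den
  have n64 : ((64 : Polynomial R)).natDegree = 0 := by
    exact_mod_cast Polynomial.natDegree_natCast (R := R) 64
  have n4 : ((4 : Polynomial R)).natDegree = 0 := by
    exact_mod_cast Polynomial.natDegree_natCast (R := R) 4
  have h0 := h 0
  have h1 := h 1
  have h2 := h 2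
  have h4 := h 4
  have e1 : (4 * (two x i j f).coeff 0 * (two x i j f).coeff 2).natDegree ≤ 2 := by
    refine Polynomial.natDegree_mul_le.trans ?_
    have := Polynomial.natDegree_mul_le (p := (4 : Polynomial R)) (q := (two x i j f).coeff 0)
    omega
  have e2 : ((two x i j f).coeff 1 ^ 2).natDegree ≤ 2 := by
    have := Polynomial.natDegree_pow_le (p := (two x i j f).coeff 1) (n := 2)
    omega
  have e3 := (Polynomial.natDegree_sub_le (4 * (two x i j f).coeff 0 * (two x i j f).coeff 2)
    ((two x i j f).coeff 1 ^ 2)).trans (max_le e1 e2)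
  have e4 := Polynomial.natDegree_pow_le (p := 4 * (two x i j f).coeff 0 * (two x i j f).coeff 2 -
    (two x i j f).coeff 1 ^ 2) (n := 2)
  have e5 : (64 * (two x i j f).coeff 0 ^ 3 * (two x i j f).coeff 4).natDegree ≤ 4 := by
    refine Polynomial.natDegree_mul_le.trans ?_
    have := Polynomial.natDegree_mul_le (p := (64 : Polynomial R)) (q := (two x i j f).coeff 0 ^ 3)
    have := Polynomial.natDegree_pow_le (p := (two x i j f).coeff 0) (n := 3)
    omega
  refine (Polynomial.natDegree_sub_le _ _).trans (max_le ?_ e5)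
  omega

/-- the nondegeneracy condition -/
noncomputable def nd (x : Fin N → R) (i j : Fin N) (f : MvPolynomial (Fin N) k) : R :=
  (cub x i j f).coeff 3 *
    Polynomial.resultant (cub x i j f) (Polynomial.derivative (cub x i j f)) 3 2 *
    Polynomial.resultant (cub x i j f) (den x i j f) 3 4

theorem nd_map {S : Type w} [CommRing S] [Algebra k S] (φ : R →ₐ[k] S) (x : Fin N → R)
    (i j : Fin N) (f : MvPolynomial (Fin N) k) :
    φ (nd x i j f) = nd (fun l => φ (x l)) i j f := by
  unfold nd
  rw [← cub_map φ, ← den_map φ, Polynomial.coeff_map, Polynomial.derivative_map,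
    Polynomial.resultant_map_map, Polynomial.resultant_map_map, map_mul, map_mul]
  rfl

end Deg

section Fld

variable {K : Type v} [Field K]

theorem res_iff {f g : Polynomial K} {m n : ℕ} (hf : f.natDegree ≤ m) (hc : f.coeff m ≠ 0)
    (hg : g.natDegree ≤ n) : Polynomial.resultant f g m n ≠ 0 ↔ IsCoprime f g := by
  have hm : f.natDegree = m := le_antisymm hf (Polynomial.le_natDegree_of_ne_zero hc)
  obtain ⟨e, rfl⟩ := Nat.exists_eq_add_of_le hg
  subst hm
  rw [Polynomial.resultant_add_right_deg _ _ _ _ _ le_rfl, Ne, mul_eq_zero, not_or]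
  have hf0 : f ≠ 0 := by
    rintro rfl
    exact hc (by simp)
  constructor
  · rintro ⟨-, h⟩
    by_contra hcop
    exact h (Polynomial.resultant_eq_zero_iff.mpr ⟨Or.inl hf0, hcop⟩)
  · intro h
    refine ⟨pow_ne_zero _ hc, fun h0 => ?_⟩
    exact (Polynomial.resultant_eq_zero_iff.mp h0).2 h

end Fld

section Fld2

variable {k : Type u} [Field k] {K : Type v} [Field K] [Algebra k K] {N : ℕ}

theorem nd_iff [CharZero K] (x : Fin N → K) (i j : Fin N) (f : MvPolynomial (Fin N) k) :
    nd x i j f ≠ 0 ↔ (cub x i j f).coeff 3 ≠ 0 ∧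
      IsCoprime (cub x i j f) (Polynomial.derivative (cub x i j f)) ∧
      IsCoprime (cub x i j f) (den x i j f) := by
  unfold nd
  rw [mul_ne_zero_iff, mul_ne_zero_iff, and_assoc]
  refine and_congr_right fun hc => ?_
  rw [res_iff (cub_natDegree x i j f) hc (den_natDegree x i j f),
    res_iff (cub_natDegree x i j f) hc ((Polynomial.natDegree_derivative_le _).trans
      (Nat.sub_le_sub_right (cub_natDegree x i j f) 1))]

/-- two good slopes over the algebraic closure -/
theorem exists_slopes [CharZero K] {x : Fin N → K} {i j : Fin N} {f : MvPolynomial (Fin N) k}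
    (h : nd x i j f ≠ 0) : ∃ s₁ s₂ : AlgebraicClosure K, s₁ ≠ s₂ ∧ ∀ s, s = s₁ ∨ s = s₂ →
      (cub x i j f).eval₂ (algebraMap K (AlgebraicClosure K)) s = 0 ∧
      (Polynomial.derivative (cub x i j f)).eval₂ (algebraMap K (AlgebraicClosure K)) s ≠ 0 ∧
      (den x i j f).eval₂ (algebraMap K (AlgebraicClosure K)) s ≠ 0 := by
  classical
  obtain ⟨h3, hsep, hcop⟩ := (nd_iff x i j f).mp h
  obtain ⟨P, hP⟩ : ∃ P, P = (cub x i j f).map (algebraMap K (AlgebraicClosure K)) := ⟨_, rfl⟩
  have hdeg : (cub x i j f).natDegree = 3 :=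
    le_antisymm (cub_natDegree x i j f) (Polynomial.le_natDegree_of_ne_zero h3)
  have hPs : P.Separable := by
    rw [hP]
    exact (Polynomial.separable_map _).mpr hsep
  have hPd : P.natDegree = 3 := by rw [hP, Polynomial.natDegree_map, hdeg]
  have hroots : P.roots.card = 3 := by
    rw [← hPd]
    exact (IsAlgClosed.splits P).natDegree_eq_card_roots.symm
  have hnd : P.roots.Nodup := Polynomial.nodup_roots hPs
  have hfin : P.roots.toFinset.card = 3 := by
    rw [Multiset.toFinset_card_of_nodup hnd, hroots]
  obtain ⟨s₁, hs₁, s₂, hs₂, hne⟩ := Finset.one_lt_card.mp (by rw [hfin]; norm_num :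
    1 < P.roots.toFinset.card)
  have hP0 : P ≠ 0 := by
    intro h0
    rw [h0] at hPd
    simp at hPd
  have hgood : ∀ s ∈ P.roots.toFinset,
      (cub x i j f).eval₂ (algebraMap K (AlgebraicClosure K)) s = 0 ∧
      (Polynomial.derivative (cub x i j f)).eval₂ (algebraMap K (AlgebraicClosure K)) s ≠ 0 ∧
      (den x i j f).eval₂ (algebraMap K (AlgebraicClosure K)) s ≠ 0 := by
    intro s hs
    rw [Multiset.mem_toFinset, Polynomial.mem_roots hP0, hP, Polynomial.IsRoot,
      Polynomial.eval_map] at hs
    refine ⟨hs, fun h0 => ?_, fun h0 => ?_⟩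
    · obtain ⟨a, b, hab⟩ := hsep
      have h1 := congrArg (Polynomial.eval₂ (algebraMap K (AlgebraicClosure K)) s) hab
      rw [Polynomial.eval₂_add, Polynomial.eval₂_mul, Polynomial.eval₂_mul, hs, h0, mul_zero,
        mul_zero, add_zero, Polynomial.eval₂_one] at h1
      exact zero_ne_one h1
    · obtain ⟨a, b, hab⟩ := hcop
      have h1 := congrArg (Polynomial.eval₂ (algebraMap K (AlgebraicClosure K)) s) hab
      rw [Polynomial.eval₂_add, Polynomial.eval₂_mul, Polynomial.eval₂_mul, hs, h0, mul_zero,
        mul_zero, add_zero, Polynomial.eval₂_one] at h1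
      exact zero_ne_one h1
  refine ⟨s₁, s₂, hne, ?_⟩
  rintro s (rfl | rfl)
  · exact hgood _ hs₁
  · exact hgood _ hs₂

end Fld2

end Pool.Agent.Helper93K9.DC
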