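import Pool.Agent.Helper93K9.DC.Abs

/-! The nondegeneracy condition follows from the existence of a simple tangent line. -/

set_option autoImplicit false

namespace Pool.Agent.Helper93K9.DC

open MvPolynomial Pool.Agent.R867.Mov Pool.Agent.R867.J Pool.Agent.R867.H Pool.Agent.R867.D

universe u v w

section LinR

variable {k : Type u} [CommRing k] {R : Type v} [CommRing R] [Algebra k R] {N : ℕ}

/-- restriction to a line -/
noncomputable def linR (x v : Fin N → R) : MvPolynomial (Fin N) k →ₐ[k] Polynomial R :=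
  aeval (fun l => Polynomial.C (x l) + Polynomial.X * Polynomial.C (v l))

theorem linR_map {S : Type w} [CommRing S] [Algebra k S] (φ : R →ₐ[k] S) (x v : Fin N → R)
    (f : MvPolynomial (Fin N) k) :
    (linR x v f).map φ.toRingHom = linR (fun l => φ (x l)) (fun l => φ (v l)) f := by
  induction f using MvPolynomial.induction_on with
  | C c =>
    unfold linR
    rw [aeval_C, aeval_C]
    change (Polynomial.C (algebraMap k R c)).map _ = Polynomial.C (algebraMap k S c)
    rw [Polynomial.map_C]
    congr 1
    exact φ.commutes c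
  | add p q hp hq => rw [map_add, Polynomial.map_add, hp, hq, map_add]
  | mul_X p l hp =>
    rw [map_mul, Polynomial.map_mul, hp, map_mul]
    congr 1
    unfold linR
    rw [aeval_X, aeval_X, Polynomial.map_add, Polynomial.map_mul, Polynomial.map_C,
      Polynomial.map_C, Polynomial.map_X]
    rfl

end LinR

section Scale

variable {k : Type u} [Field k] {Ω : Type v} [Field Ω] [Algebra k Ω] {N : ℕ}

theorem linR_eq (x v : Fin N → Ω) (f : MvPolynomial (Fin N) k) : linR x v f = lin x v f := rfl

theorem lin_smul (x v : Fin N → Ω) (t : Ω) (f : MvPolynomial (Fin N) k) :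
    lin x (fun l => t * v l) f = (lin x v f).comp (Polynomial.C t * Polynomial.X) := by
  induction f using MvPolynomial.induction_on with
  | C c => rw [lin_C, lin_C, Polynomial.C_comp]
  | add p q hp hq => rw [map_add, map_add, Polynomial.add_comp, hp, hq]
  | mul_X p l hp =>
    rw [map_mul, map_mul, Polynomial.mul_comp, hp, lin_X, lin_X, Polynomial.add_comp,
      Polynomial.mul_comp, Polynomial.C_comp, Polynomial.C_comp, Polynomial.X_comp, Polynomial.C_mul]
    ring

theorem lin_smul_coeff (x v : Fin N → Ω) (t : Ω) (f : MvPolynomial (Fin N) k) (m : ℕ) :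
    (lin x (fun l => t * v l) f).coeff m = (lin x v f).coeff m * t ^ m := by
  rw [lin_smul, Polynomial.comp_C_mul_X_coeff]

end Scale

/-- The point `r` is a smooth point of the plane curve, and the line in the direction of `v` is a
simple tangent. -/
structure Tang {k : Type u} [Field k] {N : ℕ} {Ω : Type v} [Field Ω] [Algebra k Ω]
    (f : MvPolynomial (Fin N) k) (i j : Fin N) (r v : Fin N → Ω) : Prop where
  supp : ∀ l, l ≠ i → l ≠ j → v l = 0
  smooth : aeval r (pderiv i f) ≠ 0 ∨ aeval r (pderiv j f) ≠ 0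
  tang : ∃ q c a : Ω, q ≠ 0 ∧ c ^ 2 - 4 * q * a ≠ 0 ∧ lin r v f = Polynomial.X ^ 2 *
    (Polynomial.C q + Polynomial.C c * Polynomial.X + Polynomial.C a * Polynomial.X ^ 2)

/-- the tangential vector field -/
noncomputable def tv {k : Type u} [Field k] {N : ℕ} (i j : Fin N) (f : MvPolynomial (Fin N) k)
    (l : Fin N) : MvPolynomial (Fin N) k :=
  if l = i then pderiv j f else if l = j then - pderiv i f else 0

/-- the condition on the tangent line -/
noncomputable def tD {k : Type u} [Field k] {N : ℕ} (i j : Fin N) (f : MvPolynomial (Fin N) k) :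
    MvPolynomial (Fin N) k :=
  (linR (R := MvPolynomial (Fin N) k) X (tv i j f) f).coeff 2 *
    ((linR (R := MvPolynomial (Fin N) k) X (tv i j f) f).coeff 3 ^ 2 -
      4 * (linR (R := MvPolynomial (Fin N) k) X (tv i j f) f).coeff 2 *
        (linR (R := MvPolynomial (Fin N) k) X (tv i j f) f).coeff 4)

section Eval

variable {k : Type u} [Field k] {Ω : Type v} [Field Ω] [Algebra k Ω] {N : ℕ}
  {f : MvPolynomial (Fin N) k} {i j : Fin N}

theorem tD_eval (r : Fin N → Ω) {v : Fin N → Ω} {t : Ω}
    (hv : ∀ l, aeval r (tv i j f l) = t * v l) :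
    aeval r (tD i j f) = t ^ 8 * ((lin r v f).coeff 2 * ((lin r v f).coeff 3 ^ 2 -
      4 * (lin r v f).coeff 2 * (lin r v f).coeff 4)) := by
  have h : ∀ m, aeval r ((linR (R := MvPolynomial (Fin N) k) X (tv i j f) f).coeff m) =
      (lin r v f).coeff m * t ^ m := by
    intro m
    have h1 := linR_map (aeval r : MvPolynomial (Fin N) k →ₐ[k] Ω)
      (X : Fin N → MvPolynomial (Fin N) k) (tv i j f) f
    simp only [aeval_X, hv] at h1
    have h2 := congrArg (fun p => Polynomial.coeff p m) h1
    simp only [Polynomial.coeff_map] at h2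
    rw [linR_eq, lin_smul_coeff] at h2
    exact h2
  unfold tD
  rw [map_mul, map_sub, map_pow, map_mul, map_mul, map_ofNat, h, h, h]
  ring

theorem Tang.coeffs {r v : Fin N → Ω} (h : Tang f i j r v) :
    aeval r f = 0 ∧ (lin r v f).coeff 1 = 0 ∧ (lin r v f).coeff 2 ≠ 0 ∧
      (lin r v f).coeff 3 ^ 2 - 4 * (lin r v f).coeff 2 * (lin r v f).coeff 4 ≠ 0 := by
  obtain ⟨q, c, a, hq, hd, hl⟩ := h.tang
  have h0 : aeval r f = (lin r v f).coeff 0 := by
    rw [Polynomial.coeff_zero_eq_eval_zero, lin_eval]
    congr 2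
    funext l
    rw [zero_mul, add_zero]
  have hl' : lin r v f = Polynomial.C q * Polynomial.X ^ 2 + Polynomial.C c * Polynomial.X ^ 3 +
      Polynomial.C a * Polynomial.X ^ 4 := by
    rw [hl]
    ring
  rw [h0, hl']
  simp only [Polynomial.coeff_add, Polynomial.coeff_C_mul, Polynomial.coeff_X_pow]
  norm_num
  exact ⟨hq, hd⟩

theorem Tang.deg {r v : Fin N → Ω} (h : Tang f i j r v) (hij : i ≠ j) :
    degreeOf i f ≠ 0 ∧ degreeOf j f ≠ 0 := by
  obtain ⟨h0, h1, h2, h3⟩ := h.coeffs
  have hc1 : (lin r v f).coeff 1 = v i * aeval r (pderiv i f) + v j * aeval r (pderiv j f) := by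
    have h4 := lin_e1 (x := r) (v := v) f
    rw [← Polynomial.coeff_zero_eq_eval_zero, Polynomial.coeff_derivative] at h4
    have h5 : ∀ m, v m * aeval r (pderiv m f) = (if m = i then v i * aeval r (pderiv i f) else 0) +
        (if m = j then v j * aeval r (pderiv j f) else 0) := by
      intro m
      by_cases e1 : m = i
      · subst e1
        rw [if_pos rfl, if_neg hij, add_zero]
      · by_cases e2 : m = j
        · subst e2
          rw [if_neg e1, if_pos rfl, zero_add]
        · rw [if_neg e1, if_neg e2, h.supp m e1 e2, zero_mul, add_zero]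
    rw [Finset.sum_congr rfl (fun m _ => h5 m)] at h4
    simp only [Finset.sum_add_distrib, Finset.sum_ite_eq', Finset.mem_univ, if_true] at h4
    rw [← h4]
    norm_num
  have key : ∀ a b : Fin N, a ≠ b → (∀ l, l ≠ a → l ≠ b → v l = 0) → degreeOf a f = 0 →
      v a * aeval r (pderiv a f) + v b * aeval r (pderiv b f) = 0 →
      (aeval r (pderiv a f) ≠ 0 ∨ aeval r (pderiv b f) ≠ 0) → False := by
    intro a b hab hs ha hsum hne
    have h4 := pderiv_eq_zero_of_degreeOf ha
    rw [h4, map_zero, mul_zero, zero_add] at hsum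
    rw [h4, map_zero] at hne
    have h5 := hne.resolve_left (fun h => h rfl)
    have h6 : v b = 0 := (mul_eq_zero.mp hsum).resolve_right h5
    have h7 : (lin r v f).natDegree ≤ 0 := by
      refine lin_natDegree1 (i := a) (fun l hl => ?_) (le_of_eq ha)
      by_cases hlb : l = b
      · rw [hlb, h6]
      · exact hs l hl hlb
    exact h2 (Polynomial.coeff_eq_zero_of_natDegree_lt (by omega))
  rw [hc1] at h1
  constructor
  · intro hd
    exact key i j hij h.supp hd h1 h.smooth
  · intro hd
    refine key j i (Ne.symm hij) (fun l h4 h5 => h.supp l h5 h4) hd ?_ h.smooth.symm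
    rw [add_comm]
    exact h1

theorem Tang.tD_ne {r v : Fin N → Ω} (h : Tang f i j r v) (hij : i ≠ j) :
    aeval r (tD i j f) ≠ 0 := by
  obtain ⟨h0, h1, h2, h3⟩ := h.coeffs
  have hc1 : (lin r v f).coeff 1 = v i * aeval r (pderiv i f) + v j * aeval r (pderiv j f) := by
    have h4 := lin_e1 (x := r) (v := v) f
    rw [← Polynomial.coeff_zero_eq_eval_zero, Polynomial.coeff_derivative] at h4
    have h5 : ∀ m, v m * aeval r (pderiv m f) = (if m = i then v i * aeval r (pderiv i f) else 0) +
        (if m = j then v j * aeval r (pderiv j f) else 0) := by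
      intro m
      by_cases e1 : m = i
      · subst e1
        rw [if_pos rfl, if_neg hij, add_zero]
      · by_cases e2 : m = j
        · subst e2
          rw [if_neg e1, if_pos rfl, zero_add]
        · rw [if_neg e1, if_neg e2, h.supp m e1 e2, zero_mul, add_zero]
    rw [Finset.sum_congr rfl (fun m _ => h5 m)] at h4
    simp only [Finset.sum_add_distrib, Finset.sum_ite_eq', Finset.mem_univ, if_true] at h4
    rw [← h4]
    norm_num
  rw [hc1] at h1
  have hv : v i ≠ 0 ∨ v j ≠ 0 := by
    by_contra hcon
    push Not at hcon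
    have h7 : (lin r v f).natDegree ≤ degreeOf i f := by
      refine lin_natDegree1 (i := i) (fun l hl => ?_) le_rfl
      by_cases hlb : l = j
      · rw [hlb, hcon.2]
      · exact h.supp l hl hlb
    have h8 : v = fun l => 0 * v l := by
      funext l
      rw [zero_mul]
      by_cases h9 : l = i
      · rw [h9, hcon.1]
      · by_cases h10 : l = j
        · rw [h10, hcon.2]
        · exact h.supp l h9 h10
    apply h2
    rw [h8, lin_smul_coeff]
    norm_num
  obtain ⟨t, ht0, hti, htj⟩ : ∃ t : Ω, t ≠ 0 ∧ aeval r (pderiv j f) = t * v i ∧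
      - aeval r (pderiv i f) = t * v j := by
    rcases hv with hv | hv
    · refine ⟨aeval r (pderiv j f) / v i, ?_, (div_mul_cancel₀ _ hv).symm, ?_⟩
      · refine div_ne_zero (fun h0 => ?_) hv
        rw [h0, mul_zero, add_zero] at h1
        have h4 := (mul_eq_zero.mp h1).resolve_left hv
        rcases h.smooth with h5 | h5
        · exact h5 h4
        · exact h5 h0
      · field_simp
        linear_combination - h1
    · refine ⟨- aeval r (pderiv i f) / v j, ?_, ?_, (div_mul_cancel₀ _ hv).symm⟩
      · refine div_ne_zero (fun h0 => ?_) hv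
        have h0' : aeval r (pderiv i f) = 0 := neg_eq_zero.mp h0
        rw [h0', mul_zero, zero_add] at h1
        have h4 := (mul_eq_zero.mp h1).resolve_left hv
        rcases h.smooth with h5 | h5
        · exact h5 h0'
        · exact h5 h4
      · field_simp
        linear_combination h1
  rw [tD_eval r (v := v) (t := t)]
  · exact mul_ne_zero (pow_ne_zero _ ht0) (mul_ne_zero h2 h3)
  · intro l
    unfold tv
    by_cases h4 : l = i
    · rw [if_pos h4, h4]
      exact hti
    · by_cases h5 : l = j
      · rw [if_neg h4, if_pos h5, h5, map_neg]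
        exact htj
      · rw [if_neg h4, if_neg h5, map_zero, h.supp l h4 h5, mul_zero]

end Eval

section Main

variable {k : Type u} [Field k] {N : ℕ} {f : MvPolynomial (Fin N) k} {i j : Fin N}

theorem expand_two {K : Type v} [Field K] [Algebra k K] (η : Fin N → K) (i : Fin N)
    (G : MvPolynomial (Fin N) k) : ∃ W : Polynomial K,
      aeval (fun l => Polynomial.C (η l) + if l = i then Polynomial.X ^ 2 else 0) G =
        Polynomial.C (aeval η G) + Polynomial.X ^ 2 * W ∧ W.eval 0 = aeval η (pderiv i G) := by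
  induction G using MvPolynomial.induction_on with
  | C c =>
    refine ⟨0, ?_, ?_⟩
    · rw [aeval_C, aeval_C, mul_zero, add_zero]
      rfl
    · rw [pderiv_C, map_zero, Polynomial.eval_zero]
  | add p q hp hq =>
    obtain ⟨W, h1, h2⟩ := hp
    obtain ⟨W', h3, h4⟩ := hq
    refine ⟨W + W', ?_, ?_⟩
    · rw [map_add, h1, h3, map_add, map_add]
      ring
    · rw [Polynomial.eval_add, h2, h4, map_add, map_add]
  | mul_X p l hp =>
    obtain ⟨W, h1, h2⟩ := hp
    by_cases hl : l = i
    · refine ⟨W * Polynomial.C (η l) + Polynomial.C (aeval η p) + Polynomial.X ^ 2 * W, ?_, ?_⟩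
      · rw [map_mul, h1, aeval_X, if_pos hl, map_mul, aeval_X, Polynomial.C_mul]
        ring
      · rw [pderiv_mul, map_add, map_mul, map_mul, aeval_X, hl, pderiv_X_self, map_one, mul_one]
        simp only [Polynomial.eval_add, Polynomial.eval_mul, Polynomial.eval_pow,
          Polynomial.eval_X, Polynomial.eval_C, h2]
        norm_num
    · refine ⟨W * Polynomial.C (η l), ?_, ?_⟩
      · rw [map_mul, h1, aeval_X, if_neg hl, map_mul, aeval_X, Polynomial.C_mul]
        ring
      · rw [pderiv_mul, map_add, map_mul, map_mul, aeval_X, pderiv_X_of_ne hl, map_zero, mul_zero,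
          add_zero]
        simp [h2]

/-- a simple tangent line in the plane of the two variables -/
theorem nd_of_tang [CharZero k] (hf : Irreducible f) (hij : i ≠ j) {Ω : Type v} [Field Ω]
    [Algebra k Ω] {r v : Fin N → Ω} (h : Tang f i j r v) :
    nd (R := MvPolynomial (Fin N) k) X i j f ≠ 0 := by
  obtain ⟨K, _, _, η, hη⟩ := exists_gp hf
  have hcK : CharZero K := charZero_of_injective_algebraMap (algebraMap k K).injective
  obtain ⟨hdi, hdj⟩ := h.deg hij
  obtain ⟨α, hα⟩ : ∃ α, α = aeval η (pderiv i f) := ⟨_, rfl⟩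
  obtain ⟨β, hβ⟩ : ∃ β, β = aeval η (pderiv j f) := ⟨_, rfl⟩
  have hα0 : α ≠ 0 := by
    rw [hα]
    exact GP.pderiv_ne (fun P => (hη.zero_iff P).mp) hdi
  have hβ0 : β ≠ 0 := by
    rw [hβ]
    exact GP.pderiv_ne (fun P => (hη.zero_iff P).mp) hdj
  have hηf : aeval η f = 0 := (hη.zero_iff f).mpr dvd_rfl
  have htD : aeval η (tD i j f) ≠ 0 := by
    intro h0
    obtain ⟨g, hg⟩ := (hη.zero_iff _).mp h0
    apply h.tD_ne hij
    rw [hg, map_mul, h.coeffs.1, zero_mul]
  obtain ⟨s, hs⟩ : ∃ s, s = - α / β := ⟨_, rfl⟩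
  have hsβ : s * β = - α := by rw [hs]; exact div_mul_cancel₀ _ hβ0
  rw [tD_eval η (v := vec i j s) (t := β)] at htD
  swap
  · intro l
    unfold tv vec
    by_cases h4 : l = i
    · rw [if_pos h4, if_pos h4, if_neg (by rw [h4]; exact hij), add_zero, mul_one, hβ]
    · by_cases h5 : l = j
      · rw [if_neg h4, if_pos h5, if_neg h4, if_pos h5, map_neg, ← hα, zero_add, mul_comm, hsβ]
      · rw [if_neg h4, if_neg h5, if_neg h4, if_neg h5, map_zero, add_zero, mul_zero]
  obtain ⟨q, hq⟩ : ∃ q, q = (lin η (vec i j s) f).coeff 2 := ⟨_, rfl⟩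
  obtain ⟨c, hc⟩ : ∃ c, c = (lin η (vec i j s) f).coeff 3 := ⟨_, rfl⟩
  obtain ⟨a, ha⟩ : ∃ a, a = (lin η (vec i j s) f).coeff 4 := ⟨_, rfl⟩
  rw [← hq, ← hc, ← ha] at htD
  have hq0 : q ≠ 0 := left_ne_zero_of_mul (right_ne_zero_of_mul htD)
  have hd0 : c ^ 2 - 4 * q * a ≠ 0 := right_ne_zero_of_mul (right_ne_zero_of_mul htD)
  -- the point over `K[ε]`
  obtain ⟨x', hx'⟩ : ∃ x' : Fin N → Polynomial K,
    x' = fun l => Polynomial.C (η l) + if l = i then Polynomial.X ^ 2 else 0 := ⟨_, rfl⟩
  obtain ⟨W, hW1, hW2⟩ := expand_two η i f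
  obtain ⟨U, hU1, hU2⟩ := expand_two η i (pderiv i f)
  obtain ⟨V, hV1, hV2⟩ := expand_two η i (pderiv j f)
  rw [← hx'] at hW1 hU1 hV1
  rw [hηf, map_zero, zero_add] at hW1
  let M := FractionRing (Polynomial K)
  let ι : Polynomial K →ₐ[k] M := IsScalarTower.toAlgHom k (Polynomial K) M
  have hι : Function.Injective ι.toRingHom := IsFractionRing.injective (Polynomial K) M
  have hcM : CharZero M := charZero_of_injective_algebraMap (algebraMap K M).injective
  let π : Polynomial K →ₐ[k] K := (Polynomial.aeval (0 : K)).restrictScalars k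
  have hπ : ∀ p, π p = p.eval 0 := fun p => by
    change Polynomial.aeval (0 : K) p = _
    rw [Polynomial.coe_aeval_eq_eval]
  have hπx : (fun l => π (x' l)) = η := by
    funext l
    rw [hπ, hx']
    change Polynomial.eval 0 (Polynomial.C (η l) + if l = i then Polynomial.X ^ 2 else 0) = η l
    split_ifs <;> simp
  have hcoef : ∀ m, π.toRingHom (((two x' i j f).coeff m).eval (Polynomial.C s)) =
      (lin η (vec i j s) f).coeff m := by
    intro m
    have h1 := two_coeff_map π x' i j f m
    rw [hπx] at h1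
    have h2 := two_coeff_eval (AlgHom.id k K) s η i j f m
    have h3 : (fun l => (AlgHom.id k K) (η l)) = η := rfl
    rw [h3, ← h1] at h2
    rw [← h2, Polynomial.eval₂_map]
    have h4 : (Polynomial.eval (Polynomial.C s) ((two x' i j f).coeff m)) =
        Polynomial.eval₂ (RingHom.id _) (Polynomial.C s) ((two x' i j f).coeff m) := rfl
    rw [h4, Polynomial.hom_eval₂]
    have h5 : π.toRingHom (Polynomial.C s) = s := by
      change π (Polynomial.C s) = s
      rw [hπ, Polynomial.eval_C]
    rw [h5]
    rfl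
  have habs := abs_main (π := π.toRingHom) (ι := ι.toRingHom) hι (ε := Polynomial.X)
    (s := Polynomial.C s) (F := aeval x' f) (F' := W) (u := aeval x' (pderiv i f))
    (v := aeval x' (pderiv j f)) (g := U + Polynomial.C s * V) (A2 := (two x' i j f).coeff 2)
    (A3 := (two x' i j f).coeff 3) (A4 := (two x' i j f).coeff 4) (q := q) (c := c) (a := a)
    (cu := cub x' i j f) (de := den x' i j f) Polynomial.X_ne_zero (by
      change π Polynomial.X = 0
      rw [hπ, Polynomial.eval_X]) hW1 (by
      rw [hU1, hV1]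
      have h1 : Polynomial.C (aeval η (pderiv i f)) + Polynomial.C s *
          Polynomial.C (aeval η (pderiv j f)) = 0 := by
        rw [← hα, ← hβ, ← Polynomial.C_mul, hsβ, ← Polynomial.C_add, add_neg_cancel,
          Polynomial.C_0]
      linear_combination h1) (by
      change π W ≠ 0
      rw [hπ, hW2, ← hα]
      exact hα0) (by
      change π _ ≠ 0
      rw [hπ, hV1]
      simp only [Polynomial.eval_add, Polynomial.eval_mul, Polynomial.eval_pow, Polynomial.eval_X,
        Polynomial.eval_C, ← hβ]
      norm_num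
      exact hβ0) (two_coeff_natDegree x' i j f 2) (two_coeff_natDegree x' i j f 3)
      (by rw [hcoef, hq]) (by rw [hcoef, hc]) (by rw [hcoef, ha]) hq0 hd0 (by
        unfold cub
        rw [two_coeff_zero, two_coeff_one x' hij]) (by
        unfold den
        rw [two_coeff_zero, two_coeff_one x' hij])
  have hndM : nd (fun l => ι (x' l)) i j f ≠ 0 := by
    rw [nd_iff, ← cub_map ι, ← den_map ι, Polynomial.coeff_map]
    exact habs
  have h1 := nd_map ι x' i j f
  have h2 : nd x' i j f ≠ 0 := by
    intro h0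
    rw [h0, map_zero] at h1
    exact hndM h1.symm
  have h3 := nd_map (aeval x' : MvPolynomial (Fin N) k →ₐ[k] Polynomial K)
    (X : Fin N → MvPolynomial (Fin N) k) i j f
  simp only [aeval_X] at h3
  intro h0
  rw [h0, map_zero] at h3
  exact h2 h3.symm

end Main

end Pool.Agent.Helper93K9.DC
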