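import Pool.Agent.Helper93K9.DC.Kill

/-! The restriction of a polynomial to the lines through a point in a coordinate plane. -/

set_option autoImplicit false

namespace Pool.Agent.Helper93K9.DC

open MvPolynomial Pool.Agent.R867.Mov Pool.Agent.R867.J Pool.Agent.R867.H Pool.Agent.R867.D

universe u v w

section Two

variable {k : Type u} [CommRing k] {R : Type v} [CommRing R] [Algebra k R] {N : ℕ}

/-- the direction `e i + S e j` -/
noncomputable def dir (R : Type v) [CommRing R] (i j l : Fin N) : Polynomial R :=
  (if l = i then 1 else 0) + (if l = j then Polynomial.X else 0)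

/-- the polynomial `f (x + T (e i + S e j))` in `T` over `R[S]` -/
noncomputable def two (x : Fin N → R) (i j : Fin N) :
    MvPolynomial (Fin N) k →ₐ[k] Polynomial (Polynomial R) :=
  aeval (fun l => Polynomial.C (Polynomial.C (x l)) + Polynomial.X * Polynomial.C (dir R i j l))

theorem two_X (x : Fin N → R) (i j l : Fin N) : two (k := k) x i j (X l) =
    Polynomial.C (Polynomial.C (x l)) + Polynomial.X * Polynomial.C (dir R i j l) := by
  unfold two
  rw [aeval_X]

theorem two_C (x : Fin N → R) (i j : Fin N) (c : k) : two x i j (C c) =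
    Polynomial.C (Polynomial.C (algebraMap k R c)) := by
  unfold two
  rw [aeval_C]
  rfl

/-- functoriality -/
theorem two_map {S : Type w} [CommRing S] [Algebra k S] (φ : R →ₐ[k] S) (x : Fin N → R)
    (i j : Fin N) (f : MvPolynomial (Fin N) k) :
    (two x i j f).map (Polynomial.mapRingHom φ.toRingHom) = two (fun l => φ (x l)) i j f := by
  induction f using MvPolynomial.induction_on with
  | C c =>
    rw [two_C, two_C, Polynomial.map_C, Polynomial.coe_mapRingHom, Polynomial.map_C]
    congr 2
    exact φ.commutes c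
  | add p q hp hq => rw [map_add, Polynomial.map_add, hp, hq, map_add]
  | mul_X p l hp =>
    rw [map_mul, Polynomial.map_mul, hp, map_mul, two_X, two_X, Polynomial.map_add,
      Polynomial.map_mul, Polynomial.map_C, Polynomial.map_C, Polynomial.map_X,
      Polynomial.coe_mapRingHom, Polynomial.map_C]
    congr 4
    unfold dir
    rw [Polynomial.map_add]
    split_ifs <;> simp

theorem two_coeff_map {S : Type w} [CommRing S] [Algebra k S] (φ : R →ₐ[k] S) (x : Fin N → R)
    (i j : Fin N) (f : MvPolynomial (Fin N) k) (m : ℕ) :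
    ((two x i j f).coeff m).map φ.toRingHom = (two (fun l => φ (x l)) i j f).coeff m := by
  rw [← two_map, Polynomial.coeff_map, Polynomial.coe_mapRingHom]

theorem two_coeff_zero (x : Fin N → R) (i j : Fin N) (f : MvPolynomial (Fin N) k) :
    (two x i j f).coeff 0 = Polynomial.C (aeval x f) := by
  induction f using MvPolynomial.induction_on with
  | C c => rw [two_C, Polynomial.coeff_C_zero, aeval_C]
  | add p q hp hq => rw [map_add, Polynomial.coeff_add, hp, hq, map_add, map_add]
  | mul_X p l hp =>
    rw [map_mul, Polynomial.mul_coeff_zero, hp, two_X, Polynomial.coeff_add,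
      Polynomial.coeff_C_zero, Polynomial.mul_coeff_zero, Polynomial.coeff_X_zero, zero_mul,
      add_zero, map_mul, map_mul, aeval_X]

theorem two_coeff_one (x : Fin N → R) {i j : Fin N} (hij : i ≠ j) (f : MvPolynomial (Fin N) k) :
    (two x i j f).coeff 1 = Polynomial.C (aeval x (pderiv i f)) +
      Polynomial.C (aeval x (pderiv j f)) * Polynomial.X := by
  induction f using MvPolynomial.induction_on with
  | C c =>
    rw [two_C, Polynomial.coeff_C_ne_zero one_ne_zero, pderiv_C, pderiv_C, map_zero, map_zero,
      zero_mul, add_zero]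
  | add p q hp hq =>
    rw [map_add, Polynomial.coeff_add, hp, hq]
    simp only [map_add]
    ring
  | mul_X p l hp =>
    rw [map_mul, Polynomial.mul_coeff_one, hp, two_coeff_zero, two_coeff_zero, two_X]
    have h1 : (Polynomial.C (Polynomial.C (x l)) + Polynomial.X * Polynomial.C (dir R i j l) :
        Polynomial (Polynomial R)).coeff 1 = dir R i j l := by
      simp [Polynomial.coeff_C]
    rw [h1, pderiv_mul, pderiv_mul, aeval_X]
    unfold dir
    by_cases h2 : l = i
    · subst h2
      rw [pderiv_X_self, pderiv_X_of_ne hij, if_pos rfl, if_neg hij]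
      simp only [map_add, map_mul, aeval_X, map_one, map_zero, mul_one, mul_zero]
      ring
    · by_cases h3 : l = j
      · subst h3
        rw [pderiv_X_self, pderiv_X_of_ne (Ne.symm hij), if_neg h2, if_pos rfl]
        simp only [map_add, map_mul, aeval_X, map_one, map_zero, mul_one, mul_zero]
        ring
      · rw [pderiv_X_of_ne h2, pderiv_X_of_ne h3, if_neg h2, if_neg h3]
        simp only [map_add, map_mul, aeval_X, map_zero, mul_zero]
        ring

/-- the third differential of the square root along the line -/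
noncomputable def cub (x : Fin N → R) (i j : Fin N) (f : MvPolynomial (Fin N) k) : Polynomial R :=
  8 * (8 * (two x i j f).coeff 0 ^ 2 * (two x i j f).coeff 3 -
    4 * (two x i j f).coeff 0 * (two x i j f).coeff 1 * (two x i j f).coeff 2 +
    (two x i j f).coeff 1 ^ 3)

/-- the denominator -/
noncomputable def den (x : Fin N → R) (i j : Fin N) (f : MvPolynomial (Fin N) k) : Polynomial R :=
  (4 * (two x i j f).coeff 0 * (two x i j f).coeff 2 - (two x i j f).coeff 1 ^ 2) ^ 2 -
    64 * (two x i j f).coeff 0 ^ 3 * (two x i j f).coeff 4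

theorem cub_map {S : Type w} [CommRing S] [Algebra k S] (φ : R →ₐ[k] S) (x : Fin N → R)
    (i j : Fin N) (f : MvPolynomial (Fin N) k) :
    (cub x i j f).map φ.toRingHom = cub (fun l => φ (x l)) i j f := by
  unfold cub
  simp only [Polynomial.map_mul, Polynomial.map_add, Polynomial.map_sub, Polynomial.map_pow,
    two_coeff_map, Polynomial.map_ofNat]

theorem den_map {S : Type w} [CommRing S] [Algebra k S] (φ : R →ₐ[k] S) (x : Fin N → R)
    (i j : Fin N) (f : MvPolynomial (Fin N) k) :
    (den x i j f).map φ.toRingHom = den (fun l => φ (x l)) i j f := by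
  unfold den
  simp only [Polynomial.map_mul, Polynomial.map_sub, Polynomial.map_pow,
    two_coeff_map, Polynomial.map_ofNat]

end Two

section Lin

variable {k : Type u} [Field k] {N : ℕ} {K : Type v} [Field K] [Algebra k K] {Ω : Type w} [Field Ω]
  [Algebra k Ω]

/-- the direction at a given slope -/
def vec (i j : Fin N) (s : Ω) (l : Fin N) : Ω :=
  (if l = i then 1 else 0) + (if l = j then s else 0)

theorem two_lin (κ : K →ₐ[k] Ω) (s : Ω) (x : Fin N → K) (i j : Fin N)
    (f : MvPolynomial (Fin N) k) :
    (two x i j f).map (Polynomial.eval₂RingHom κ.toRingHom s) =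
      lin (fun l => κ (x l)) (vec i j s) f := by
  induction f using MvPolynomial.induction_on with
  | C c =>
    rw [two_C, lin_C, Polynomial.map_C, Polynomial.coe_eval₂RingHom, Polynomial.eval₂_C]
    congr 1
    exact κ.commutes c
  | add p q hp hq => rw [map_add, Polynomial.map_add, hp, hq, map_add]
  | mul_X p l hp =>
    rw [map_mul, Polynomial.map_mul, hp, map_mul, two_X, lin_X, Polynomial.map_add,
      Polynomial.map_mul, Polynomial.map_C, Polynomial.map_C, Polynomial.map_X,
      Polynomial.coe_eval₂RingHom, Polynomial.eval₂_C]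
    congr 4
    unfold dir vec
    rw [Polynomial.eval₂_add]
    split_ifs <;> simp

theorem two_coeff_eval (κ : K →ₐ[k] Ω) (s : Ω) (x : Fin N → K) (i j : Fin N)
    (f : MvPolynomial (Fin N) k) (m : ℕ) :
    ((two x i j f).coeff m).eval₂ κ.toRingHom s =
      (lin (fun l => κ (x l)) (vec i j s) f).coeff m := by
  rw [← two_lin, Polynomial.coeff_map, Polynomial.coe_eval₂RingHom]

theorem cub_eval (κ : K →ₐ[k] Ω) (s : Ω) (x : Fin N → K) (i j : Fin N)
    (f : MvPolynomial (Fin N) k) {p : Polynomial Ω}
    (hp : p = lin (fun l => κ (x l)) (vec i j s) f) :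
    (cub x i j f).eval₂ κ.toRingHom s =
      8 * (8 * p.coeff 0 ^ 2 * p.coeff 3 - 4 * p.coeff 0 * p.coeff 1 * p.coeff 2 +
        p.coeff 1 ^ 3) := by
  unfold cub
  have h8 : ∀ n : ℕ, (Polynomial.eval₂ κ.toRingHom s (n : Polynomial K)) = n := fun n =>
    Polynomial.eval₂_natCast _ _ n
  have e8 : Polynomial.eval₂ κ.toRingHom s (8 : Polynomial K) = 8 := by exact_mod_cast h8 8
  have e4 : Polynomial.eval₂ κ.toRingHom s (4 : Polynomial K) = 4 := by exact_mod_cast h8 4
  simp only [Polynomial.eval₂_mul, Polynomial.eval₂_add, Polynomial.eval₂_sub,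
    Polynomial.eval₂_pow, two_coeff_eval, ← hp, e8, e4]

theorem den_eval (κ : K →ₐ[k] Ω) (s : Ω) (x : Fin N → K) (i j : Fin N)
    (f : MvPolynomial (Fin N) k) {p : Polynomial Ω}
    (hp : p = lin (fun l => κ (x l)) (vec i j s) f) :
    (den x i j f).eval₂ κ.toRingHom s =
      (4 * p.coeff 0 * p.coeff 2 - p.coeff 1 ^ 2) ^ 2 - 64 * p.coeff 0 ^ 3 * p.coeff 4 := by
  unfold den
  have h8 : ∀ n : ℕ, (Polynomial.eval₂ κ.toRingHom s (n : Polynomial K)) = n := fun n =>
    Polynomial.eval₂_natCast _ _ n
  have e8 : Polynomial.eval₂ κ.toRingHom s (64 : Polynomial K) = 64 := by exact_mod_cast h8 64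
  have e4 : Polynomial.eval₂ κ.toRingHom s (4 : Polynomial K) = 4 := by exact_mod_cast h8 4
  simp only [Polynomial.eval₂_mul, Polynomial.eval₂_sub,
    Polynomial.eval₂_pow, two_coeff_eval, ← hp, e8, e4]

end Lin

end Pool.Agent.Helper93K9.DC
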